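/-
MP_1da1b4_al (helper7): the inequality of Varopoulos and Carne for symmetric random walks on groups,
by Chebyshev polynomials; the norm bound for T_n (P) is obtained by doubling, without spectral theory.
-/
import Mathlib

namespace Pool.Agent.Lib.MP_1da1b4_al

open Polynomial Polynomial.Chebyshev Finset

section Abstract

variable {M : Type*} [AddCommGroup M] [Module ℝ M] (B : M →ₗ[ℝ] M →ₗ[ℝ] ℝ)
  (hsymm : ∀ v w, B v w = B w v) (hpos : ∀ v, 0 ≤ B v v)
  (P : Module.End ℝ M) (hadj : ∀ v w, B (P v) w = B v (P w)) (hcon : ∀ v, B (P v) (P v) ≤ B v v)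

include hadj in
theorem adj_aeval (p : ℝ[X]) : ∀ v w, B (aeval P p v) w = B v (aeval P p w) := by
  induction p using Polynomial.induction_on' with
  | add p q hp hq =>
    intro v w
    simp only [map_add, LinearMap.add_apply, hp v w, hq v w]
  | monomial n a =>
    have hpow : ∀ n : ℕ, ∀ v w, B ((P ^ n) v) w = B v ((P ^ n) w) := by
      intro n
      induction n with
      | zero => intro v w; rfl
      | succ n ih =>
        intro v w
        rw [pow_succ, Module.End.mul_apply, ih, hadj, ← Module.End.mul_apply, ← pow_succ',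
          ← pow_succ]
    intro v w
    have e : (aeval P) (monomial n a) = a • P ^ n := by
      rw [aeval_monomial, Algebra.algebraMap_eq_smul_one, smul_mul_assoc, one_mul]
    rw [e]
    simp only [LinearMap.smul_apply, map_smul, smul_eq_mul, hpow n v w]

include hadj in
theorem B_mul (p q : ℝ[X]) (v : M) : B (aeval P p v) (aeval P q v) = B v (aeval P (p * q) v) := by
  rw [adj_aeval B P hadj, map_mul, Module.End.mul_apply]

include hsymm hpos in
/-- Cauchy-Schwarz, multiplicative form with a parameter -/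
theorem cs_eps (v w : M) (t : ℝ) : 2 * t * B v w ≤ t ^ 2 * B v v + B w w := by
  have h := hpos (t • v - w)
  simp only [map_sub, map_smul, LinearMap.sub_apply, LinearMap.smul_apply, smul_eq_mul] at h
  rw [← hsymm v w] at h
  have h' : t * (t * B v v - B v w) - (t * B v w - B w w) =
      t ^ 2 * B v v + B w w - 2 * t * B v w := by ring
  rw [h'] at h
  linarith

include hsymm hpos in
theorem add_eps (v w : M) (t : ℝ) (ht : 0 < t) :
    B (v + w) (v + w) ≤ (1 + t) * B v v + (1 + 1 / t) * B w w := by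
  have h := cs_eps B hsymm hpos v w t
  have h2 := hsymm v w
  have e : B (v + w) (v + w) = B v v + 2 * B v w + B w w := by
    simp only [map_add, LinearMap.add_apply]
    linarith
  rw [e]
  have h3 : 2 * B v w ≤ t * B v v + 1 / t * B w w := by
    have h4 : 2 * B v w = (2 * t * B v w) / t := by field_simp
    rw [h4, div_le_iff₀ ht]
    have h5 : (t * B v v + 1 / t * B w w) * t = t ^ 2 * B v v + B w w := by field_simp
    rw [h5]
    exact h
  linarith

/-- `B (T_n (P) v) (T_n (P) v)` -/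
noncomputable def aa (v : M) (n : ℕ) : ℝ :=
  B (aeval P (T ℝ (n : ℤ)) v) (aeval P (T ℝ (n : ℤ)) v)

include hpos hadj hcon in
theorem aa_step (v : M) (k : ℕ) : B (aeval P (T ℝ ((k : ℤ) + 1) - X * T ℝ (k : ℤ)) v)
    (aeval P (T ℝ ((k : ℤ) + 1) - X * T ℝ (k : ℤ)) v) ≤ B v v := by
  -- the conserved quantity
  have hid : ∀ k : ℕ, (T ℝ ((k : ℤ) + 1)) ^ 2 - 2 * X * T ℝ ((k : ℤ) + 1) * T ℝ (k : ℤ) +
      (T ℝ (k : ℤ)) ^ 2 = 1 - X ^ 2 := by
    intro k
    induction k with
    | zero =>
      simp only [Nat.cast_zero, zero_add, T_one, T_zero]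
      ring
    | succ k ih =>
      have h1 : T ℝ (((k + 1 : ℕ) : ℤ) + 1) = 2 * X * T ℝ ((k : ℤ) + 1) - T ℝ (k : ℤ) := by
        rw [← T_add_two ℝ (k : ℤ)]
        exact congrArg (T ℝ) (by push_cast; ring)
      have h2 : T ℝ ((k + 1 : ℕ) : ℤ) = T ℝ ((k : ℤ) + 1) := by push_cast; rfl
      rw [h1, h2, ← ih]
      ring
  have h := hid k
  set p := T ℝ ((k : ℤ) + 1) with hp
  set q := T ℝ (k : ℤ) with hq
  have e1 : B (aeval P (p - X * q) v) (aeval P (p - X * q) v) =
      B v v - B (P v) (P v) - (B (aeval P q v) (aeval P q v) -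
        B (P (aeval P q v)) (P (aeval P q v))) := by
    have a1 := B_mul B P hadj (p - X * q) (p - X * q) v
    have a2 := B_mul B P hadj q q v
    have a3 := B_mul B P hadj (X * q) (X * q) v
    have a4 := B_mul B P hadj X X v
    have a5 : aeval P (X * q) v = P (aeval P q v) := by
      rw [map_mul, aeval_X, Module.End.mul_apply]
    have a6 : aeval P (X : ℝ[X]) v = P v := by rw [aeval_X]
    rw [a5] at a3
    rw [a6] at a4
    rw [a1, a2, a3, a4]
    have a7 : (p - X * q) * (p - X * q) = 1 - X * X - (q * q - (X * q) * (X * q)) := by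
      linear_combination h
    rw [a7]
    simp only [map_sub, map_one, LinearMap.sub_apply, Module.End.one_apply]
  rw [e1]
  have h3 := hcon (aeval P q v)
  have h4 := hpos (P v)
  linarith

include hsymm hpos hadj hcon in
theorem aa_lin (v : M) (k : ℕ) : aa B P v k ≤ ((k : ℝ) + 1) ^ 2 * B v v := by
  induction k with
  | zero =>
    unfold aa
    simp
  | succ k ih =>
    have hdec : aeval P (T ℝ ((k + 1 : ℕ) : ℤ)) v =
        P (aeval P (T ℝ (k : ℤ)) v) + aeval P (T ℝ ((k : ℤ) + 1) - X * T ℝ (k : ℤ)) v := by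
      have h1 : P (aeval P (T ℝ (k : ℤ)) v) = aeval P (X * T ℝ (k : ℤ)) v := by
        rw [map_mul, aeval_X, Module.End.mul_apply]
      rw [h1, ← LinearMap.add_apply, ← map_add]
      congr 2
      push_cast
      ring
    have hk : (0 : ℝ) < (k : ℝ) + 1 := by positivity
    have h1 := add_eps B hsymm hpos (P (aeval P (T ℝ (k : ℤ)) v))
      (aeval P (T ℝ ((k : ℤ) + 1) - X * T ℝ (k : ℤ)) v) (1 / ((k : ℝ) + 1)) (by positivity)
    rw [← hdec] at h1
    have h2 := hcon (aeval P (T ℝ (k : ℤ)) v)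
    have h3 := aa_step B hpos P hadj hcon v k
    have h4 : B (aeval P (T ℝ (k : ℤ)) v) (aeval P (T ℝ (k : ℤ)) v) ≤ ((k : ℝ) + 1) ^ 2 * B v v := ih
    have h5 := hpos v
    have e2 : (1 : ℝ) + 1 / (1 / ((k : ℝ) + 1)) = (k : ℝ) + 2 := by
      rw [one_div_one_div]; ring
    have e3 : (1 : ℝ) + 1 / ((k : ℝ) + 1) = ((k : ℝ) + 2) / ((k : ℝ) + 1) := by
      field_simp; ring
    rw [e2, e3] at h1
    unfold aa
    calc _ ≤ ((k : ℝ) + 2) / ((k : ℝ) + 1) *
          B (P (aeval P (T ℝ (k : ℤ)) v)) (P (aeval P (T ℝ (k : ℤ)) v)) +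
          ((k : ℝ) + 2) * B (aeval P (T ℝ ((k : ℤ) + 1) - X * T ℝ (k : ℤ)) v)
            (aeval P (T ℝ ((k : ℤ) + 1) - X * T ℝ (k : ℤ)) v) := h1
      _ ≤ ((k : ℝ) + 2) / ((k : ℝ) + 1) * (((k : ℝ) + 1) ^ 2 * B v v) +
          ((k : ℝ) + 2) * B v v :=
          add_le_add (mul_le_mul_of_nonneg_left (h2.trans h4) (by positivity))
            (mul_le_mul_of_nonneg_left h3 (by positivity))
      _ = (((k + 1 : ℕ) : ℝ) + 1) ^ 2 * B v v := by
          push_cast
          field_simp
          ring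

include hsymm hpos hadj in
theorem aa_double (v : M) (k : ℕ) : 2 * aa B P v k ≤ B v v + Real.sqrt (B v v * aa B P v (2 * k)) := by
  have h1 : 2 * aa B P v k = B v v + B v (aeval P (T ℝ ((2 * k : ℕ) : ℤ)) v) := by
    unfold aa
    rw [B_mul B P hadj]
    have h2 := T_mul_T ℝ (k : ℤ) (k : ℤ)
    have h3 : (2 : ℝ) * B v (aeval P (T ℝ (k : ℤ) * T ℝ (k : ℤ)) v) =
        B v (aeval P (2 * T ℝ (k : ℤ) * T ℝ (k : ℤ)) v) := by
      have : (2 : ℝ[X]) * T ℝ (k : ℤ) * T ℝ (k : ℤ) =
          T ℝ (k : ℤ) * T ℝ (k : ℤ) + T ℝ (k : ℤ) * T ℝ (k : ℤ) := by ring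
      rw [this]
      simp only [map_add, LinearMap.add_apply]
      ring
    rw [h3, h2]
    have e1 : (k : ℤ) + k = ((2 * k : ℕ) : ℤ) := by push_cast; ring
    rw [e1, sub_self, T_zero]
    simp only [map_add, map_one, LinearMap.add_apply, Module.End.one_apply]
    ring
  have h4 : B v (aeval P (T ℝ ((2 * k : ℕ) : ℤ)) v) ≤ Real.sqrt (B v v * aa B P v (2 * k)) := by
    refine Real.le_sqrt_of_sq_le ?_
    set w := aeval P (T ℝ ((2 * k : ℕ) : ℤ)) v with hw
    show B v w ^ 2 ≤ B v v * B w w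
    have hv := hpos v
    have hww := hpos w
    rcases hv.eq_or_lt with h0 | h0
    · -- `B v v = 0`
      have hz : B v w = 0 := by
        by_contra hne
        have h6 := cs_eps B hsymm hpos v w ((B w w + 1) / (2 * B v w))
        rw [← h0, mul_zero, zero_add] at h6
        have h7 : 2 * ((B w w + 1) / (2 * B v w)) * B v w = B w w + 1 := by field_simp
        rw [h7] at h6
        linarith
      rw [hz, ← h0]
      norm_num
    · have h6 := cs_eps B hsymm hpos v w (B v w / B v v)
      have h7 : 2 * (B v w / B v v) * B v w = 2 * (B v w ^ 2 / B v v) := by ring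
      have h8 : (B v w / B v v) ^ 2 * B v v = B v w ^ 2 / B v v := by field_simp
      rw [h7, h8] at h6
      have h9 : B v w ^ 2 / B v v ≤ B w w := by linarith
      rw [div_le_iff₀ h0] at h9
      linarith
  linarith

include hsymm hpos hadj hcon in
/-- The operators `T_n (P)` are contractions. -/
theorem aa_le (v : M) (k : ℕ) : aa B P v k ≤ B v v := by
  have hv := hpos v
  rcases hv.eq_or_lt with h0 | h0
  · have := aa_lin B hsymm hpos P hadj hcon v k
    rw [← h0, mul_zero] at this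
    rw [← h0]
    exact this
  by_contra hcon'
  push Not at hcon'
  -- normalised square roots
  let x : ℕ → ℝ := fun j => Real.sqrt (aa B P v (2 ^ j * k) / B v v)
  have hnn : ∀ n, 0 ≤ aa B P v n := fun n => hpos _
  have hx2 : ∀ j, x j ^ 2 = aa B P v (2 ^ j * k) / B v v := fun j =>
    Real.sq_sqrt (div_nonneg (hnn _) hv)
  have hx0 : 1 < x 0 := by
    have h1 : 1 < aa B P v (2 ^ 0 * k) / B v v := by
      rw [one_lt_div h0, pow_zero, one_mul]
      exact hcon'
    exact Real.lt_sqrt_of_sq_lt (by simpa using h1)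
  have hxs : ∀ j, 2 * x j ^ 2 - 1 ≤ x (j + 1) := by
    intro j
    have h1 := aa_double B hsymm hpos P hadj v (2 ^ j * k)
    have h2 : Real.sqrt (B v v * aa B P v (2 * (2 ^ j * k))) = B v v * x (j + 1) := by
      have e : 2 * (2 ^ j * k) = 2 ^ (j + 1) * k := by ring
      rw [e]
      show _ = B v v * Real.sqrt (aa B P v (2 ^ (j + 1) * k) / B v v)
      have h3 : B v v * aa B P v (2 ^ (j + 1) * k) =
          (B v v) ^ 2 * (aa B P v (2 ^ (j + 1) * k) / B v v) := by field_simp
      rw [h3, Real.sqrt_mul (sq_nonneg _), Real.sqrt_sq hv]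
    rw [h2] at h1
    rw [hx2]
    have h4 : (2 * (aa B P v (2 ^ j * k) / B v v) - 1) * B v v ≤ x (j + 1) * B v v := by
      have h5 : (2 * (aa B P v (2 ^ j * k) / B v v) - 1) * B v v =
          2 * aa B P v (2 ^ j * k) - B v v := by field_simp
      rw [h5]
      linarith
    exact le_of_mul_le_mul_right h4 h0
  have hxg : ∀ j, 4 ^ j * (x 0 - 1) ≤ x j - 1 := by
    intro j
    induction j with
    | zero => simp
    | succ j ih =>
      have h1 := hxs j
      have h2 : 0 ≤ x j - 1 := le_trans (mul_nonneg (by positivity) (by linarith)) ih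
      have h3 : 4 * (x j - 1) ≤ x (j + 1) - 1 := by nlinarith
      calc (4 : ℝ) ^ (j + 1) * (x 0 - 1) = 4 * (4 ^ j * (x 0 - 1)) := by ring
        _ ≤ 4 * (x j - 1) := by linarith
        _ ≤ _ := h3
  have hxl : ∀ j, x j ≤ 2 ^ j * k + 1 := by
    intro j
    have h1 := aa_lin B hsymm hpos P hadj hcon v (2 ^ j * k)
    refine Real.sqrt_le_iff.2 ⟨by positivity, ?_⟩
    rw [div_le_iff₀ h0]
    push_cast at h1
    exact h1
  obtain ⟨j, hj⟩ := pow_unbounded_of_one_lt ((k : ℝ) / (x 0 - 1)) (by norm_num : (1 : ℝ) < 2)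
  have h1 := hxg j
  have h2 := hxl j
  have h3 : 0 < x 0 - 1 := by linarith
  rw [div_lt_iff₀ h3] at hj
  have h4 : (4 : ℝ) ^ j = 2 ^ j * 2 ^ j := by
    rw [← mul_pow]; norm_num
  rw [h4] at h1
  have h5 : (0 : ℝ) < 2 ^ j := by positivity
  nlinarith

end Abstract

end Pool.Agent.Lib.MP_1da1b4_al
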