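/-
MP_1da1b4_al (helper7): the inner product of finitely supported functions.
-/
import Mathlib
import Pool.Agent.Lib.MP_1da1b4_al.VC

namespace Pool.Agent.Lib.MP_1da1b4_al

open Finset

section Form

variable {α : Type*}

/-- the inner product of finitely supported functions -/
noncomputable def BB : (α →₀ ℝ) →ₗ[ℝ] (α →₀ ℝ) →ₗ[ℝ] ℝ :=
  Finsupp.linearCombination ℝ (fun x : α => (Finsupp.lapply x : (α →₀ ℝ) →ₗ[ℝ] ℝ))

theorem BB_single_left (x : α) (a : ℝ) (h : α →₀ ℝ) : BB (Finsupp.single x a) h = a * h x := by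
  simp [BB]

theorem BB_single_right (f : α →₀ ℝ) (x : α) (a : ℝ) : BB f (Finsupp.single x a) = a * f x := by
  classical
  induction f using Finsupp.induction_linear with
  | zero => simp
  | add f g hf hg =>
    rw [map_add, LinearMap.add_apply, hf, hg, Finsupp.add_apply]
    ring
  | single y b =>
    rw [BB_single_left, Finsupp.single_apply, Finsupp.single_apply]
    by_cases h : x = y
    · rw [if_pos h, if_pos h.symm]; ring
    · rw [if_neg h, if_neg (fun h' => h h'.symm)]; ring

theorem BB_symm (f h : α →₀ ℝ) : BB f h = BB h f := by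
  induction f using Finsupp.induction_linear with
  | zero => simp
  | add f g hf hg => rw [map_add, map_add, LinearMap.add_apply, hf, hg]
  | single y b => rw [BB_single_left, BB_single_right]

theorem BB_self (f : α →₀ ℝ) : BB f f = ∑ x ∈ f.support, f x ^ 2 := by
  unfold BB
  rw [Finsupp.linearCombination_apply, Finsupp.sum, LinearMap.sum_apply]
  refine Finset.sum_congr rfl fun x _ => ?_
  simp [sq]

theorem BB_pos (f : α →₀ ℝ) : 0 ≤ BB f f := by
  rw [BB_self]
  exact Finset.sum_nonneg fun _ _ => sq_nonneg _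

theorem sq_le_BB (f : α →₀ ℝ) (x : α) : f x ^ 2 ≤ BB f f := by
  rw [BB_self]
  by_cases h : x ∈ f.support
  · exact Finset.single_le_sum (f := fun x => f x ^ 2) (fun _ _ => sq_nonneg _) h
  · have h0 : f x = 0 := Finsupp.notMem_support_iff.1 h
    rw [h0]
    have : (0 : ℝ) ^ 2 = 0 := by norm_num
    rw [this]
    exact Finset.sum_nonneg fun _ _ => sq_nonneg _


theorem sum_sq_le_BB (f : α →₀ ℝ) (F : Finset α) : ∑ x ∈ F, f x ^ 2 ≤ BB f f := by
  classical
  rw [BB_self]
  calc ∑ x ∈ F, f x ^ 2 = ∑ x ∈ F with f x ≠ 0, f x ^ 2 := by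
        rw [Finset.sum_filter]
        refine Finset.sum_congr rfl fun x _ => ?_
        by_cases h : f x = 0
        · simp [h]
        · simp [h]
    _ ≤ ∑ x ∈ f.support, f x ^ 2 := by
        refine Finset.sum_le_sum_of_subset_of_nonneg ?_ fun _ _ _ => sq_nonneg _
        intro x hx
        exact Finsupp.mem_support_iff.2 (Finset.mem_filter.1 hx).2

end Form

end Pool.Agent.Lib.MP_1da1b4_al
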