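/-
MP_1da1b4_al (helper7): return probabilities of the lazy symmetric random walk on an infinite orbit
are at most C / sqrt t (one-dimensional Nash inequality).
-/
import Mathlib
import Pool.Agent.Lib.MP_1da1b4_al.BF

namespace Pool.Agent.Lib.MP_1da1b4_al

open Finset

section Heat

variable {G X : Type*} [Group G] [MulAction G X]

/-- translation of a finitely supported function -/
noncomputable def TX (s : G) : Module.End ℝ (X →₀ ℝ) := Finsupp.lmapDomain ℝ ℝ (fun x => s • x)

theorem TX_apply (s : G) (f : X →₀ ℝ) (x : X) : TX s f x = f (s⁻¹ • x) := by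
  have h := Finsupp.mapDomain_apply (f := fun x : X => s • x) (MulAction.injective s) f (s⁻¹ • x)
  have h' : (Finsupp.mapDomain (fun x : X => s • x) f) (s • (s⁻¹ • x)) = f (s⁻¹ • x) := h
  rw [smul_inv_smul] at h'
  exact h'

theorem TX_single (s : G) (x : X) (a : ℝ) : TX s (Finsupp.single x a) = Finsupp.single (s • x) a :=
  Finsupp.mapDomain_single

theorem BB_TX (s : G) (f h : X →₀ ℝ) : BB (TX s f) h = BB f (TX s⁻¹ h) := by
  induction f using Finsupp.induction_linear with
  | zero => simp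
  | add f g' hf hg => rw [map_add, map_add, LinearMap.add_apply, hf, hg, map_add, LinearMap.add_apply]
  | single y b => rw [TX_single, BB_single_left, BB_single_left, TX_apply, inv_inv]

theorem BB_TX_self (s : G) (f : X →₀ ℝ) : BB (TX s f) (TX s f) = BB f f := by
  rw [BB_TX]
  congr 1
  ext x
  rw [TX_apply, TX_apply, inv_inv, inv_smul_smul]

variable (S : Finset G)

/-- the averaging operator -/
noncomputable def QX : Module.End ℝ (X →₀ ℝ) := ((S.card : ℝ))⁻¹ • ∑ s ∈ S, TX s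

theorem QX_apply (f : X →₀ ℝ) (x : X) :
    QX S f x = ((S.card : ℝ))⁻¹ * ∑ s ∈ S, f (s⁻¹ • x) := by
  unfold QX
  rw [LinearMap.smul_apply, LinearMap.sum_apply, Finsupp.smul_apply, Finsupp.finsetSum_apply,
    smul_eq_mul]
  simp only [TX_apply]

theorem QX_adj (hinv : ∀ s ∈ S, s⁻¹ ∈ S) (v w : X →₀ ℝ) : BB (QX S v) w = BB v (QX S w) := by
  unfold QX
  rw [LinearMap.smul_apply, LinearMap.sum_apply, map_smul, map_sum, LinearMap.smul_apply,
    LinearMap.sum_apply, LinearMap.smul_apply, LinearMap.sum_apply, map_smul, map_sum]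
  congr 1
  refine Finset.sum_nbij' (fun s => s⁻¹) (fun s => s⁻¹) hinv hinv (fun s _ => inv_inv s)
    (fun s _ => inv_inv s) fun s _ => ?_
  rw [BB_TX]

/-- the energy -/
noncomputable def EX (f : X →₀ ℝ) : ℝ := ∑ s ∈ S, BB (f - TX s f) (f - TX s f)

theorem QX_drop (h1 : (1 : G) ∈ S) (f : X →₀ ℝ) :
    EX S f / (2 * (S.card : ℝ) ^ 2) ≤ BB f f - BB (QX S f) (QX S f) := by
  have hm : (0 : ℝ) < S.card := by exact_mod_cast Finset.card_pos.2 ⟨1, h1⟩
  have e : BB (QX S f) (QX S f) = ((S.card : ℝ))⁻¹ * (((S.card : ℝ))⁻¹ *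
      ∑ s ∈ S, ∑ s' ∈ S, BB (TX s f) (TX s' f)) := by
    unfold QX
    rw [LinearMap.smul_apply, LinearMap.sum_apply, map_smul, map_smul, LinearMap.smul_apply,
      smul_eq_mul, smul_eq_mul]
    congr 2
    simp only [map_sum, LinearMap.sum_apply]
    exact Finset.sum_comm
  have hD : ∀ s s' : G, 2 * BB (TX s f) (TX s' f) =
      2 * BB f f - BB (TX s f - TX s' f) (TX s f - TX s' f) := by
    intro s s'
    simp only [map_sub, LinearMap.sub_apply, BB_TX_self]
    rw [BB_symm (TX s' f) (TX s f)]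
    ring
  have hone : TX (1 : G) f = f := by
    ext x
    rw [TX_apply, inv_one, one_smul]
  have h2 : ∑ s ∈ S, ∑ s' ∈ S, 2 * BB (TX s f) (TX s' f) ≤
      ∑ s ∈ S, ∑ _s' ∈ S, 2 * BB f f - EX S f := by
    unfold EX
    rw [← Finset.sum_sub_distrib]
    refine Finset.sum_le_sum fun s _ => ?_
    calc ∑ s' ∈ S, 2 * BB (TX s f) (TX s' f)
        = ∑ s' ∈ S, 2 * BB f f - ∑ s' ∈ S, BB (TX s f - TX s' f) (TX s f - TX s' f) := by
          rw [← Finset.sum_sub_distrib]
          exact Finset.sum_congr rfl fun s' _ => hD s s'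
      _ ≤ ∑ s' ∈ S, 2 * BB f f - BB (f - TX s f) (f - TX s f) := by
          have h3 : BB (TX s f - TX (1 : G) f) (TX s f - TX (1 : G) f) ≤
              ∑ s' ∈ S, BB (TX s f - TX s' f) (TX s f - TX s' f) :=
            Finset.single_le_sum (f := fun s' => BB (TX s f - TX s' f) (TX s f - TX s' f))
              (fun _ _ => BB_pos _) h1
          rw [hone] at h3
          have h4 : BB (TX s f - f) (TX s f - f) = BB (f - TX s f) (f - TX s f) := by
            have : TX s f - f = -(f - TX s f) := by abel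
            rw [this, map_neg, map_neg, LinearMap.neg_apply, neg_neg]
          linarith
  have h3 : ∑ s ∈ S, ∑ _s' ∈ S, 2 * BB f f = 2 * (S.card : ℝ) ^ 2 * BB f f := by
    rw [Finset.sum_const, Finset.sum_const, nsmul_eq_mul, nsmul_eq_mul]
    ring
  have h4 : ∑ s ∈ S, ∑ s' ∈ S, 2 * BB (TX s f) (TX s' f) =
      2 * ∑ s ∈ S, ∑ s' ∈ S, BB (TX s f) (TX s' f) := by
    simp only [Finset.mul_sum]
  rw [h3, h4] at h2
  rw [e, div_le_iff₀ (by positivity)]
  have h5 : (BB f f - ((S.card : ℝ))⁻¹ * (((S.card : ℝ))⁻¹ *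
      ∑ s ∈ S, ∑ s' ∈ S, BB (TX s f) (TX s' f))) * (2 * (S.card : ℝ) ^ 2) =
      2 * (S.card : ℝ) ^ 2 * BB f f - 2 * ∑ s ∈ S, ∑ s' ∈ S, BB (TX s f) (TX s' f) := by
    field_simp
  rw [h5]
  linarith

/-- the total mass -/
noncomputable def mass : (X →₀ ℝ) →ₗ[ℝ] ℝ := Finsupp.linearCombination ℝ (fun _ : X => (1 : ℝ))

theorem mass_eq (f : X →₀ ℝ) : mass f = ∑ x ∈ f.support, f x := by
  unfold mass
  rw [Finsupp.linearCombination_apply, Finsupp.sum]
  simp

theorem sum_le_mass (f : X →₀ ℝ) (hf : ∀ x, 0 ≤ f x) (F : Finset X) : ∑ x ∈ F, f x ≤ mass f := by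
  classical
  rw [mass_eq]
  calc ∑ x ∈ F, f x = ∑ x ∈ F with f x ≠ 0, f x := by
        rw [Finset.sum_filter]
        refine Finset.sum_congr rfl fun x _ => ?_
        by_cases h : f x = 0
        · simp [h]
        · simp [h]
    _ ≤ ∑ x ∈ f.support, f x := by
        refine Finset.sum_le_sum_of_subset_of_nonneg ?_ fun _ _ _ => hf _
        intro x hx
        exact Finsupp.mem_support_iff.2 (Finset.mem_filter.1 hx).2

theorem mass_TX (s : G) (f : X →₀ ℝ) : mass (TX s f) = mass f := by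
  induction f using Finsupp.induction_linear with
  | zero => simp
  | add f g' hf hg => rw [map_add, map_add, hf, hg, map_add]
  | single y b =>
    rw [TX_single]
    simp [mass]

theorem mass_QX (h1 : (1 : G) ∈ S) (f : X →₀ ℝ) : mass (QX S f) = mass f := by
  have hm : (0 : ℝ) < S.card := by exact_mod_cast Finset.card_pos.2 ⟨1, h1⟩
  unfold QX
  rw [LinearMap.smul_apply, LinearMap.sum_apply, map_smul, map_sum]
  simp only [mass_TX, Finset.sum_const, nsmul_eq_mul, smul_eq_mul]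
  field_simp

/-- a walk of length `L` with steps in `S` -/
def Wk (x : X) (L : ℕ) (y : ℕ → X) : Prop := y 0 = x ∧ ∀ i < L, ∃ s ∈ S, y (i + 1) = s • y i

theorem wk_append {x : X} {L : ℕ} {y : ℕ → X} (h : Wk S x L y) {s : G} (hs : s ∈ S) :
    ∃ y', Wk S x (L + 1) y' ∧ y' (L + 1) = s • y L := by
  refine ⟨fun i => if i ≤ L then y i else s • y L, ⟨?_, ?_⟩, ?_⟩
  · show (if 0 ≤ L then y 0 else s • y L) = x
    rw [if_pos (Nat.zero_le L)]
    exact h.1
  · intro i hi
    show ∃ s' ∈ S, (if i + 1 ≤ L then y (i + 1) else s • y L) = s' • (if i ≤ L then y i else s • y L)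
    rw [if_pos (show i ≤ L by omega)]
    rcases Nat.lt_succ_iff_lt_or_eq.1 hi with h1 | h1
    · rw [if_pos (show i + 1 ≤ L by omega)]
      exact h.2 i h1
    · rw [if_neg (show ¬ i + 1 ≤ L by omega), h1]
      exact ⟨s, hs, rfl⟩
  · show (if L + 1 ≤ L then y (L + 1) else s • y L) = s • y L
    rw [if_neg (by omega)]

theorem wk_reach (hinv : ∀ s ∈ S, s⁻¹ ∈ S) (hgen : Subgroup.closure (S : Set G) = ⊤) (x : X) (g : G) :
    ∃ L y, Wk S x L y ∧ y L = g • x := by
  have key : ∀ h ∈ Subgroup.closure (S : Set G), ∀ z : X, (∃ L y, Wk S x L y ∧ y L = z) ↔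
      (∃ L y, Wk S x L y ∧ y L = h • z) := by
    intro h hh
    have step : ∀ s ∈ S, ∀ z : X, (∃ L y, Wk S x L y ∧ y L = z) →
        (∃ L y, Wk S x L y ∧ y L = s • z) := by
      rintro s hs z ⟨L, y, hy, hyL⟩
      obtain ⟨y', h1, h2⟩ := wk_append S hy hs
      exact ⟨L + 1, y', h1, by rw [h2, hyL]⟩
    induction hh using Subgroup.closure_induction with
    | mem s hs =>
      intro z
      refine ⟨step s hs z, fun h => ?_⟩
      have h1 := step s⁻¹ (hinv s hs) (s • z) h
      rwa [inv_smul_smul] at h1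
    | one => intro z; rw [one_smul]
    | mul a b _ _ ha hb =>
      intro z
      rw [mul_smul]
      exact (hb z).trans (ha (b • z))
    | inv a _ ha =>
      intro z
      have h1 := ha (a⁻¹ • z)
      rw [smul_inv_smul] at h1
      exact h1.symm
  have hg : g ∈ Subgroup.closure (S : Set G) := by rw [hgen]; exact Subgroup.mem_top g
  exact (key g hg x).1 ⟨0, fun _ => x, ⟨rfl, fun i hi => absurd hi (Nat.not_lt_zero i)⟩, rfl⟩

theorem nash (hinv : ∀ s ∈ S, s⁻¹ ∈ S) (hgen : Subgroup.closure (S : Set G) = ⊤)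
    (o : X) (ho : (MulAction.orbit G o).Infinite) (f : X →₀ ℝ) (hf0 : ∀ x, 0 ≤ f x)
    (hf1 : mass f = 1) (hfo : ∀ x, f x ≠ 0 → x ∈ MulAction.orbit G o) :
    (BB f f) ^ 3 ≤ 8 * EX S f := by
  classical
  -- the maximum
  have hne : f.support.Nonempty := by
    rw [Finset.nonempty_iff_ne_empty]
    intro h
    rw [mass_eq, h, Finset.sum_empty] at hf1
    exact zero_ne_one hf1
  obtain ⟨x0, hx0, hmax⟩ := Finset.exists_max_image f.support f hne
  set M := f x0 with hM
  have hM0 : 0 < M := lt_of_le_of_ne (hf0 x0) (Ne.symm (Finsupp.mem_support_iff.1 hx0))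
  have hMx : ∀ x, f x ≤ M := by
    intro x
    by_cases h : x ∈ f.support
    · exact hmax x h
    · rw [Finsupp.notMem_support_iff.1 h]
      exact hM0.le
  have hu : BB f f ≤ M := by
    rw [BB_self]
    calc ∑ x ∈ f.support, f x ^ 2 ≤ ∑ x ∈ f.support, M * f x :=
          Finset.sum_le_sum fun x _ => by nlinarith [hMx x, hf0 x]
      _ = M := by rw [← Finset.mul_sum, ← mass_eq, hf1, mul_one]
  -- a shortest walk from `x0` to a point with small value
  have hex : ∃ L : ℕ, ∃ y : ℕ → X, Wk S x0 L y ∧ f (y L) ≤ M / 2 := by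
    obtain ⟨z, hz, hzf⟩ := ho.exists_notMem_finset f.support
    obtain ⟨g, hg⟩ := hz
    obtain ⟨g0, hg0⟩ := hfo x0 (Finsupp.mem_support_iff.1 hx0)
    obtain ⟨L, y, hy, hyL⟩ := wk_reach S hinv hgen x0 (g * g0⁻¹)
    refine ⟨L, y, hy, ?_⟩
    have e : y L = z := by
      rw [hyL, mul_smul]
      have e1 : g0 • o = x0 := hg0
      have e2 : g • o = z := hg
      rw [← e1, inv_smul_smul, e2]
    rw [e, Finsupp.notMem_support_iff.1 hzf]
    positivity
  obtain ⟨y, hy, hyL⟩ := Nat.find_spec hex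
  set L := Nat.find hex with hL
  have hmin : ∀ L' < L, ¬ ∃ y : ℕ → X, Wk S x0 L' y ∧ f (y L') ≤ M / 2 :=
    fun L' h => Nat.find_min hex h
  have hlarge : ∀ i < L, M / 2 < f (y i) := by
    intro i hi
    by_contra hcon
    push Not at hcon
    exact hmin i hi ⟨y, ⟨hy.1, fun j hj => hy.2 j (hj.trans hi)⟩, hcon⟩
  have hinj : ∀ i j, i < j → j < L → y i ≠ y j := by
    intro i j hij hj h
    refine hmin (L - (j - i)) (by omega) ⟨fun k => if k ≤ i then y k else y (k + (j - i)), ⟨?_, ?_⟩, ?_⟩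
    · show (if 0 ≤ i then y 0 else y (0 + (j - i))) = x0
      rw [if_pos (Nat.zero_le i)]
      exact hy.1
    · intro k hk
      show ∃ s ∈ S, (if k + 1 ≤ i then y (k + 1) else y (k + 1 + (j - i))) =
        s • (if k ≤ i then y k else y (k + (j - i)))
      rcases lt_trichotomy k i with h1 | h1 | h1
      · rw [if_pos (by omega), if_pos (by omega)]
        exact hy.2 k (by omega)
      · rw [if_neg (by omega), if_pos (by omega), h1, h]
        have e : i + 1 + (j - i) = j + 1 := by omega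
        rw [e]
        exact hy.2 j hj
      · rw [if_neg (by omega), if_neg (by omega)]
        have e : k + 1 + (j - i) = k + (j - i) + 1 := by omega
        rw [e]
        exact hy.2 (k + (j - i)) (by omega)
    · show f (if L - (j - i) ≤ i then y (L - (j - i)) else y (L - (j - i) + (j - i))) ≤ M / 2
      rw [if_neg (by omega)]
      have e : L - (j - i) + (j - i) = L := by omega
      rw [e]
      exact hyL
  have hInj : Set.InjOn y (Finset.range L : Set ℕ) := by
    intro i hi j hj h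
    rw [Finset.mem_coe, Finset.mem_range] at hi hj
    rcases lt_trichotomy i j with h1 | h1 | h1
    · exact absurd h (hinj i j h1 hj)
    · exact h1
    · exact absurd h.symm (hinj j i h1 hi)
  have hLM : (L : ℝ) * (M / 2) ≤ 1 := by
    calc (L : ℝ) * (M / 2) = ∑ _i ∈ Finset.range L, M / 2 := by
          rw [Finset.sum_const, Finset.card_range, nsmul_eq_mul]
      _ ≤ ∑ i ∈ Finset.range L, f (y i) :=
          Finset.sum_le_sum fun i hi => (hlarge i (Finset.mem_range.1 hi)).le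
      _ = ∑ x ∈ (Finset.range L).image y, f x := (Finset.sum_image hInj).symm
      _ ≤ mass f := sum_le_mass f hf0 _
      _ = 1 := hf1
  have hE : ∑ i ∈ Finset.range L, (f (y (i + 1)) - f (y i)) ^ 2 ≤ EX S f := by
    calc ∑ i ∈ Finset.range L, (f (y (i + 1)) - f (y i)) ^ 2
        ≤ ∑ i ∈ Finset.range L, ∑ s ∈ S, ((f - TX s f) (y i)) ^ 2 := by
          refine Finset.sum_le_sum fun i hi => ?_
          obtain ⟨s, hs, hsy⟩ := hy.2 i (Finset.mem_range.1 hi)
          have e : (f (y (i + 1)) - f (y i)) ^ 2 = ((f - TX s⁻¹ f) (y i)) ^ 2 := by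
            rw [Finsupp.sub_apply, TX_apply, inv_inv, ← hsy]
            ring
          rw [e]
          exact Finset.single_le_sum (f := fun s => ((f - TX s f) (y i)) ^ 2)
            (fun _ _ => sq_nonneg _) (hinv s hs)
      _ = ∑ s ∈ S, ∑ i ∈ Finset.range L, ((f - TX s f) (y i)) ^ 2 := Finset.sum_comm
      _ = ∑ s ∈ S, ∑ x ∈ (Finset.range L).image y, ((f - TX s f) x) ^ 2 :=
          Finset.sum_congr rfl fun s _ =>
            (Finset.sum_image (f := fun x => ((f - TX s f) x) ^ 2) hInj).symm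
      _ ≤ EX S f := Finset.sum_le_sum fun s _ => sum_sq_le_BB _ _
  have hdiff : M / 2 ≤ -∑ i ∈ Finset.range L, (f (y (i + 1)) - f (y i)) := by
    rw [Finset.sum_range_sub (fun i => f (y i)) L, hy.1]
    linarith
  have hcs : (∑ i ∈ Finset.range L, (f (y (i + 1)) - f (y i))) ^ 2 ≤
      L * ∑ i ∈ Finset.range L, (f (y (i + 1)) - f (y i)) ^ 2 := by
    have := sq_sum_le_card_mul_sum_sq (s := Finset.range L) (f := fun i => f (y (i + 1)) - f (y i))
    rwa [Finset.card_range] at this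
  have h1 : (M / 2) ^ 2 ≤ L * EX S f := by
    have h2 : (M / 2) ^ 2 ≤ (∑ i ∈ Finset.range L, (f (y (i + 1)) - f (y i))) ^ 2 := by
      nlinarith
    exact h2.trans (hcs.trans (mul_le_mul_of_nonneg_left hE (Nat.cast_nonneg _)))
  have hE0 : 0 ≤ EX S f := le_trans (Finset.sum_nonneg fun _ _ => sq_nonneg _) hE
  have h2 : M ^ 3 ≤ 8 * EX S f := by
    have h3 : M * (M / 2) ^ 2 ≤ M * (L * EX S f) := mul_le_mul_of_nonneg_left h1 hM0.le
    have h4 : M * (L * EX S f) = 2 * ((L : ℝ) * (M / 2)) * EX S f := by ring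
    have h5 : 2 * ((L : ℝ) * (M / 2)) * EX S f ≤ 2 * 1 * EX S f := by
      gcongr
    nlinarith
  exact (pow_le_pow_left₀ (BB_pos f) hu 3).trans h2

/-- the law of the point after `t` steps -/
noncomputable def ff (o : X) : ℕ → (X →₀ ℝ)
  | 0 => Finsupp.single o 1
  | t + 1 => QX S (ff o t)

variable (o : X)

theorem ff_nonneg (t : ℕ) : ∀ x, 0 ≤ ff S o t x := by
  classical
  induction t with
  | zero =>
    intro x
    rw [ff, Finsupp.single_apply]
    split_ifs <;> norm_num
  | succ t ih =>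
    intro x
    rw [ff, QX_apply]
    exact mul_nonneg (by positivity) (Finset.sum_nonneg fun s _ => ih _)

theorem ff_mass (h1 : (1 : G) ∈ S) (t : ℕ) : mass (ff S o t) = 1 := by
  induction t with
  | zero => simp [ff, mass]
  | succ t ih => rw [ff, mass_QX S h1, ih]

theorem ff_orbit (t : ℕ) : ∀ x, ff S o t x ≠ 0 → x ∈ MulAction.orbit G o := by
  classical
  induction t with
  | zero =>
    intro x hx
    rw [ff, Finsupp.single_apply] at hx
    by_cases h : o = x
    · rw [← h]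
      exact MulAction.mem_orbit_self o
    · rw [if_neg h] at hx
      exact absurd rfl hx
  | succ t ih =>
    intro x hx
    rw [ff, QX_apply] at hx
    have h1 : ∑ s ∈ S, ff S o t (s⁻¹ • x) ≠ 0 := fun h => hx (by rw [h, mul_zero])
    obtain ⟨s, -, hs⟩ := Finset.exists_ne_zero_of_sum_ne_zero h1
    obtain ⟨g, hg⟩ := ih _ hs
    refine ⟨s * g, ?_⟩
    have hg' : g • o = s⁻¹ • x := hg
    show (s * g) • o = x
    rw [mul_smul, hg', smul_inv_smul]

theorem ff_BB (hinv : ∀ s ∈ S, s⁻¹ ∈ S) (a : ℕ) : ∀ b, BB (ff S o a) (ff S o b) = ff S o (a + b) o := by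
  induction a with
  | zero =>
    intro b
    rw [ff, BB_single_left, one_mul, Nat.zero_add]
  | succ a ih =>
    intro b
    rw [ff, QX_adj S hinv]
    have h1 := ih (b + 1)
    rw [ff] at h1
    rw [h1]
    congr 2
    omega

theorem ff_decay (h1 : (1 : G) ∈ S) (hinv : ∀ s ∈ S, s⁻¹ ∈ S)
    (hgen : Subgroup.closure (S : Set G) = ⊤) (ho : (MulAction.orbit G o).Infinite) (t : ℕ) :
    (BB (ff S o t) (ff S o t)) ^ 2 * (1 + 2 * (1 / (16 * (S.card : ℝ) ^ 2)) * t) ≤ 1 := by
  have hm : (1 : ℝ) ≤ S.card := by exact_mod_cast Finset.card_pos.2 ⟨1, h1⟩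
  set a := 1 / (16 * (S.card : ℝ) ^ 2) with ha
  have ha0 : 0 < a := by positivity
  have ha1 : a ≤ 1 / 16 := by
    rw [ha]
    apply one_div_le_one_div_of_le (by norm_num)
    nlinarith
  induction t with
  | zero =>
    rw [ff, BB_single_left, Finsupp.single_eq_same]
    norm_num
  | succ t ih =>
    set u := BB (ff S o t) (ff S o t) with hu
    set u' := BB (ff S o (t + 1)) (ff S o (t + 1)) with hu'
    have hu0 : 0 ≤ u := BB_pos _
    have hu0' : 0 ≤ u' := BB_pos _
    have h2 := QX_drop S h1 (ff S o t)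
    have h3 := nash S hinv hgen o ho (ff S o t) (ff_nonneg S o t) (ff_mass S o h1 t) (ff_orbit S o t)
    have h4 : a * u ^ 3 ≤ u - u' := by
      have e1 : u' = BB (QX S (ff S o t)) (QX S (ff S o t)) := by rw [hu', ff]
      rw [e1]
      refine le_trans ?_ h2
      rw [le_div_iff₀ (by positivity)]
      have e2 : a * u ^ 3 * (2 * (S.card : ℝ) ^ 2) = u ^ 3 / 8 := by
        rw [ha]
        field_simp
        ring
      rw [e2]
      linarith
    set w := 1 + 2 * a * (t : ℝ) with hw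
    have hw1 : 1 ≤ w := by
      rw [hw]
      have : 0 ≤ 2 * a * (t : ℝ) := by positivity
      linarith
    have ih' : u ^ 2 * w ≤ 1 := ih
    have hx : a * u ^ 2 ≤ 1 := by nlinarith [sq_nonneg u]
    have h5 : u' ≤ u * (1 - a * u ^ 2) := by nlinarith
    have h6 : u' ^ 2 ≤ u ^ 2 * (1 - a * u ^ 2) ^ 2 := by
      rw [← mul_pow]
      exact pow_le_pow_left₀ hu0' h5 2
    have e3 : (1 : ℝ) + 2 * a * ((t + 1 : ℕ) : ℝ) = w + 2 * a := by
      rw [hw]; push_cast; ring
    rw [e3]
    have h7 : u' ^ 2 * (w + 2 * a) ≤ u ^ 2 * (1 - a * u ^ 2) ^ 2 * (w + 2 * a) :=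
      mul_le_mul_of_nonneg_right h6 (by positivity)
    have h8 : u ^ 2 * (w + 2 * a) ≤ 1 + 2 * (a * u ^ 2) := by nlinarith
    have h9 : u ^ 2 * (1 - a * u ^ 2) ^ 2 * (w + 2 * a) ≤
        (1 + 2 * (a * u ^ 2)) * (1 - a * u ^ 2) ^ 2 := by
      have := mul_le_mul_of_nonneg_right h8 (sq_nonneg (1 - a * u ^ 2))
      nlinarith
    have hx0 : 0 ≤ a * u ^ 2 := by positivity
    have h10 : (1 + 2 * (a * u ^ 2)) * (1 - a * u ^ 2) ^ 2 ≤ 1 := by
      set x := a * u ^ 2
      have : (1 + 2 * x) * (1 - x) ^ 2 = 1 - x ^ 2 * (3 - 2 * x) := by ring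
      rw [this]
      have : 0 ≤ x ^ 2 * (3 - 2 * x) := mul_nonneg (sq_nonneg _) (by linarith)
      linarith
    linarith

/-- the return probability after `t` steps is at most `4 |S| / sqrt t` -/
theorem ff_return (h1 : (1 : G) ∈ S) (hinv : ∀ s ∈ S, s⁻¹ ∈ S)
    (hgen : Subgroup.closure (S : Set G) = ⊤) (ho : (MulAction.orbit G o).Infinite) (t : ℕ)
    (ht : 1 ≤ t) : ff S o t o ≤ 4 * S.card / Real.sqrt t := by
  have hm : (1 : ℝ) ≤ S.card := by exact_mod_cast Finset.card_pos.2 ⟨1, h1⟩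
  have ht0 : (1 : ℝ) ≤ t := by exact_mod_cast ht
  set k := t / 2 with hk
  have hmono : BB (ff S o (k + 1)) (ff S o (k + 1)) ≤ BB (ff S o k) (ff S o k) := by
    have h2 := QX_drop S h1 (ff S o k)
    have h3 : 0 ≤ EX S (ff S o k) := Finset.sum_nonneg fun _ _ => BB_pos _
    have h4 : 0 ≤ EX S (ff S o k) / (2 * (S.card : ℝ) ^ 2) := by positivity
    rw [show ff S o (k + 1) = QX S (ff S o k) from rfl]
    linarith
  have hle : ff S o t o ≤ BB (ff S o k) (ff S o k) := by
    rcases Nat.even_or_odd' t with ⟨c, hc | hc⟩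
    · have e : t = k + k := by omega
      rw [ff_BB S o hinv, ← e]
    · have e : t = k + (k + 1) := by omega
      rw [e, ← ff_BB S o hinv]
      have h2 := cs_eps BB BB_symm BB_pos (ff S o k) (ff S o (k + 1)) 1
      linarith
  have hdec := ff_decay S o h1 hinv hgen ho k
  set u := BB (ff S o k) (ff S o k) with hu
  have hu0 : 0 ≤ u := BB_pos _
  have hkt : (t : ℝ) ≤ 2 * k + 1 := by
    have : t ≤ 2 * k + 1 := by omega
    exact_mod_cast this
  have h5 : u ^ 2 * (t / (16 * (S.card : ℝ) ^ 2)) ≤ 1 := by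
    refine le_trans (mul_le_mul_of_nonneg_left ?_ (sq_nonneg u)) hdec
    rw [div_le_iff₀ (by positivity)]
    have e : (1 + 2 * (1 / (16 * (S.card : ℝ) ^ 2)) * (k : ℝ)) * (16 * (S.card : ℝ) ^ 2) =
        16 * (S.card : ℝ) ^ 2 + 2 * k := by field_simp
    rw [e]
    nlinarith
  have hs : 0 < Real.sqrt t := Real.sqrt_pos.2 (by linarith)
  refine hle.trans ?_
  rw [le_div_iff₀ hs]
  have h6 : (u * Real.sqrt t) ^ 2 ≤ (4 * (S.card : ℝ)) ^ 2 := by
    rw [mul_pow, Real.sq_sqrt (by linarith)]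
    have e : u ^ 2 * (t / (16 * (S.card : ℝ) ^ 2)) = u ^ 2 * t / (16 * (S.card : ℝ) ^ 2) := by ring
    rw [e, div_le_iff₀ (by positivity)] at h5
    nlinarith
  exact le_of_sq_le_sq h6 (by positivity)

end Heat

end Pool.Agent.Lib.MP_1da1b4_al
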