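/-
MP_1da1b4_al (helper7): the inequality of Varopoulos and Carne for a symmetric random walk on a group.
-/
import Mathlib
import Pool.Agent.Lib.MP_1da1b4_al.BF

namespace Pool.Agent.Lib.MP_1da1b4_al

open Polynomial Polynomial.Chebyshev Finset

section Walk

variable {G : Type*} [Group G]

/-- left translation of a finitely supported function -/
noncomputable def LL (g : G) : Module.End ℝ (G →₀ ℝ) := Finsupp.lmapDomain ℝ ℝ (fun x => g * x)

theorem LL_apply (g : G) (f : G →₀ ℝ) (x : G) : LL g f x = f (g⁻¹ * x) := by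
  have h := Finsupp.mapDomain_apply (f := fun x : G => g * x) (mul_right_injective g) f (g⁻¹ * x)
  have e : g * (g⁻¹ * x) = x := mul_inv_cancel_left g x
  have h' : (Finsupp.mapDomain (fun x : G => g * x) f) (g * (g⁻¹ * x)) = f (g⁻¹ * x) := h
  rw [e] at h'
  exact h'

theorem LL_single (g x : G) (a : ℝ) : LL g (Finsupp.single x a) = Finsupp.single (g * x) a :=
  Finsupp.mapDomain_single

theorem BB_LL (g : G) (f h : G →₀ ℝ) : BB (LL g f) h = BB f (LL g⁻¹ h) := by
  induction f using Finsupp.induction_linear with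
  | zero => simp
  | add f g' hf hg => rw [map_add, map_add, LinearMap.add_apply, hf, hg, map_add, LinearMap.add_apply]
  | single y b => rw [LL_single, BB_single_left, BB_single_left, LL_apply, inv_inv]

theorem BB_LL_self (g : G) (f : G →₀ ℝ) : BB (LL g f) (LL g f) = BB f f := by
  rw [BB_LL]
  congr 1
  ext x
  rw [LL_apply, LL_apply, inv_inv, inv_mul_cancel_left]

variable {ι : Type*} [Fintype ι] (Y : ι → G)

/-- the averaging operator of the steps `Y` -/
noncomputable def PP : Module.End ℝ (G →₀ ℝ) := ((Fintype.card ι : ℝ))⁻¹ • ∑ i, LL (Y i)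

theorem PP_apply (f : G →₀ ℝ) (x : G) :
    PP Y f x = ((Fintype.card ι : ℝ))⁻¹ * ∑ i, f ((Y i)⁻¹ * x) := by
  unfold PP
  rw [LinearMap.smul_apply, LinearMap.sum_apply, Finsupp.smul_apply, Finsupp.finsetSum_apply,
    smul_eq_mul]
  simp only [LL_apply]

theorem PP_adj (τ : ι ≃ ι) (hτ : ∀ i, Y (τ i) = (Y i)⁻¹) (v w : G →₀ ℝ) :
    BB (PP Y v) w = BB v (PP Y w) := by
  unfold PP
  rw [LinearMap.smul_apply, LinearMap.sum_apply, map_smul, map_sum, LinearMap.smul_apply,
    LinearMap.sum_apply, LinearMap.smul_apply, LinearMap.sum_apply, map_smul, map_sum]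
  congr 1
  rw [← Equiv.sum_comp τ]
  refine Finset.sum_congr rfl fun i _ => ?_
  rw [BB_LL, hτ, inv_inv]

theorem PP_con (v : G →₀ ℝ) : BB (PP Y v) (PP Y v) ≤ BB v v := by
  rcases isEmpty_or_nonempty ι with hι | hι
  · have h0 : PP Y v = 0 := by
      unfold PP
      simp
    rw [h0, map_zero]
    exact BB_pos v
  have hn : (0 : ℝ) < Fintype.card ι := by exact_mod_cast Fintype.card_pos
  have e : BB (PP Y v) (PP Y v) = ((Fintype.card ι : ℝ))⁻¹ * (((Fintype.card ι : ℝ))⁻¹ *
      ∑ i, ∑ j, BB (LL (Y i) v) (LL (Y j) v)) := by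
    unfold PP
    rw [LinearMap.smul_apply, LinearMap.sum_apply, map_smul, map_smul, LinearMap.smul_apply,
      smul_eq_mul, smul_eq_mul]
    congr 2
    simp only [map_sum, LinearMap.sum_apply]
    exact Finset.sum_comm
  have h1 : ∑ i, ∑ j, BB (LL (Y i) v) (LL (Y j) v) ≤
      ∑ _i : ι, ∑ _j : ι, BB v v := by
    refine Finset.sum_le_sum fun i _ => Finset.sum_le_sum fun j _ => ?_
    have h := cs_eps BB BB_symm BB_pos (LL (Y i) v) (LL (Y j) v) 1
    rw [BB_LL_self, BB_LL_self] at h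
    linarith
  rw [e]
  have h2 : ∑ _i : ι, ∑ _j : ι, BB v v = (Fintype.card ι : ℝ) * ((Fintype.card ι : ℝ) * BB v v) := by
    rw [Finset.sum_const, Finset.sum_const, Finset.card_univ, nsmul_eq_mul, nsmul_eq_mul]
  calc _ ≤ ((Fintype.card ι : ℝ))⁻¹ * (((Fintype.card ι : ℝ))⁻¹ *
        ((Fintype.card ι : ℝ) * ((Fintype.card ι : ℝ) * BB v v))) := by
        rw [← h2]
        gcongr
    _ = BB v v := by field_simp

open Classical in
/-- the law of the random walk after `r` steps -/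
noncomputable def pr : ℕ → G → ℝ
  | 0, x => if x = 1 then 1 else 0
  | r + 1, x => (∑ i, pr r ((Y i)⁻¹ * x)) / Fintype.card ι

theorem PP_pow (r : ℕ) : ∀ x, ((PP Y) ^ r) (Finsupp.single 1 1) x = pr Y r x := by
  classical
  induction r with
  | zero =>
    intro x
    rw [pow_zero, Module.End.one_apply, Finsupp.single_apply, pr]
    by_cases h : x = 1
    · rw [if_pos h, if_pos h.symm]
    · rw [if_neg h, if_neg (fun h' => h h'.symm)]
  | succ r ih =>
    intro x
    rw [pow_succ', Module.End.mul_apply, PP_apply, pr]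
    simp only [ih]
    rw [div_eq_inv_mul]

theorem T_vanish (d : ℕ) (x : G) (hx : ∀ j < d, pr Y j x = 0) (n : ℤ) (hn : n.natAbs < d) :
    aeval (PP Y) (T ℝ n) (Finsupp.single 1 1) x = 0 := by
  rw [aeval_eq_sum_range, LinearMap.sum_apply, Finsupp.finsetSum_apply]
  refine Finset.sum_eq_zero fun i hi => ?_
  rw [natDegree_T, Finset.mem_range] at hi
  rw [LinearMap.smul_apply, Finsupp.smul_apply, PP_pow, hx i (by omega), smul_zero]

theorem T_le_one (τ : ι ≃ ι) (hτ : ∀ i, Y (τ i) = (Y i)⁻¹) (x : G) (n : ℤ) :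
    |aeval (PP Y) (T ℝ n) (Finsupp.single 1 1) x| ≤ 1 := by
  have h1 := aa_le BB BB_symm BB_pos (PP Y) (PP_adj Y τ hτ) (PP_con Y) (Finsupp.single 1 1) n.natAbs
  unfold aa at h1
  rw [T_natAbs] at h1
  have h2 := sq_le_BB (aeval (PP Y) (T ℝ n) (Finsupp.single 1 1)) x
  have h3 : BB (Finsupp.single (1 : G) (1 : ℝ)) (Finsupp.single 1 1) = 1 := by
    rw [BB_single_left, Finsupp.single_eq_same, one_mul]
  rw [h3] at h1
  exact abs_le_one_iff_mul_self_le_one.2 (by nlinarith)

theorem VC_key (τ : ι ≃ ι) (hτ : ∀ i, Y (τ i) = (Y i)⁻¹) (d : ℕ) (x : G)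
    (hx : ∀ j < d, pr Y j x = 0) (l : ℝ) (hl : 0 ≤ l) (r : ℕ) : ∀ n : ℤ,
    |((PP Y) ^ r) (aeval (PP Y) (T ℝ n) (Finsupp.single 1 1)) x| ≤
      Real.exp (-(l * d)) * Real.cosh l ^ r * (Real.exp (l * n) + Real.exp (-(l * n))) := by
  induction r with
  | zero =>
    intro n
    rw [pow_zero, Module.End.one_apply, pow_zero, mul_one]
    rcases Nat.lt_or_ge n.natAbs d with h | h
    · rw [T_vanish Y d x hx n h, abs_zero]
      positivity
    · refine (T_le_one Y τ hτ x n).trans ?_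
      have h1 : ((d : ℕ) : ℝ) ≤ |(n : ℝ)| := by
        have : ((d : ℕ) : ℤ) ≤ |n| := by rw [Int.abs_eq_natAbs]; exact_mod_cast h
        calc ((d : ℕ) : ℝ) = (((d : ℕ) : ℤ) : ℝ) := by push_cast; rfl
          _ ≤ ((|n| : ℤ) : ℝ) := by exact_mod_cast this
          _ = |(n : ℝ)| := by push_cast; rfl
      have h2 : Real.exp (l * |(n : ℝ)|) ≤ Real.exp (l * n) + Real.exp (-(l * n)) := by
        rcases abs_cases (n : ℝ) with ⟨h3, -⟩ | ⟨h3, -⟩
        · rw [h3]; have := Real.exp_pos (-(l * n)); linarith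
        · rw [h3, mul_neg]; have := Real.exp_pos (l * n); linarith
      calc (1 : ℝ) ≤ Real.exp (-(l * d)) * Real.exp (l * |(n : ℝ)|) := by
            rw [← Real.exp_add]
            apply Real.one_le_exp
            nlinarith
        _ ≤ _ := mul_le_mul_of_nonneg_left h2 (Real.exp_pos _).le
  | succ r ih =>
    intro n
    have e1 : ((PP Y) ^ (r + 1)) (aeval (PP Y) (T ℝ n) (Finsupp.single 1 1)) x =
        (((PP Y) ^ r) (aeval (PP Y) (T ℝ (n + 1)) (Finsupp.single 1 1)) x +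
          ((PP Y) ^ r) (aeval (PP Y) (T ℝ (n - 1)) (Finsupp.single 1 1)) x) / 2 := by
      have h2 : T ℝ (n + 1) = 2 * X * T ℝ n - T ℝ (n - 1) := T_add_one ℝ n
      rw [pow_succ, Module.End.mul_apply, h2]
      have h3 : aeval (PP Y) (2 * X * T ℝ n - T ℝ (n - 1)) (Finsupp.single (1 : G) (1 : ℝ)) =
          PP Y (aeval (PP Y) (T ℝ n) (Finsupp.single 1 1)) +
          PP Y (aeval (PP Y) (T ℝ n) (Finsupp.single 1 1)) -
          aeval (PP Y) (T ℝ (n - 1)) (Finsupp.single 1 1) := by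
        have : (2 : ℝ[X]) * X * T ℝ n - T ℝ (n - 1) = X * T ℝ n + X * T ℝ n - T ℝ (n - 1) := by ring
        rw [this]
        simp only [map_add, map_sub, map_mul, aeval_X, LinearMap.add_apply, LinearMap.sub_apply,
          Module.End.mul_apply]
      rw [h3, map_sub, map_add, Finsupp.sub_apply, Finsupp.add_apply]
      ring
    rw [e1, abs_div, abs_of_pos (by norm_num : (0 : ℝ) < 2)]
    have h1 := ih (n + 1)
    have h2 := ih (n - 1)
    push_cast at h1 h2
    have h3 := abs_add_le (((PP Y) ^ r) (aeval (PP Y) (T ℝ (n + 1)) (Finsupp.single 1 1)) x)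
      (((PP Y) ^ r) (aeval (PP Y) (T ℝ (n - 1)) (Finsupp.single 1 1)) x)
    have e2 : (Real.exp (l * (n + 1)) + Real.exp (-(l * (n + 1)))) +
        (Real.exp (l * (n - 1)) + Real.exp (-(l * (n - 1)))) =
        2 * Real.cosh l * (Real.exp (l * n) + Real.exp (-(l * n))) := by
      rw [Real.cosh_eq]
      have a1 : Real.exp (l * (n + 1)) = Real.exp (l * n) * Real.exp l := by
        rw [← Real.exp_add]; ring_nf
      have a2 : Real.exp (-(l * (n + 1))) = Real.exp (-(l * n)) * Real.exp (-l) := by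
        rw [← Real.exp_add]; ring_nf
      have a3 : Real.exp (l * (n - 1)) = Real.exp (l * n) * Real.exp (-l) := by
        rw [← Real.exp_add]; ring_nf
      have a4 : Real.exp (-(l * (n - 1))) = Real.exp (-(l * n)) * Real.exp l := by
        rw [← Real.exp_add]; ring_nf
      rw [a1, a2, a3, a4]
      ring
    have e3 : Real.exp (-(l * d)) * Real.cosh l ^ (r + 1) *
        (Real.exp (l * n) + Real.exp (-(l * n))) =
        (Real.exp (-(l * d)) * Real.cosh l ^ r * (Real.exp (l * (n + 1)) +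
          Real.exp (-(l * (n + 1)))) +
        Real.exp (-(l * d)) * Real.cosh l ^ r * (Real.exp (l * (n - 1)) +
          Real.exp (-(l * (n - 1))))) / 2 := by
      rw [← mul_add, e2]
      ring
    rw [e3]
    linarith

/-- **Varopoulos-Carne.** -/
theorem VC (τ : ι ≃ ι) (hτ : ∀ i, Y (τ i) = (Y i)⁻¹) (d : ℕ) (x : G)
    (hx : ∀ j < d, pr Y j x = 0) (r : ℕ) (hr : 1 ≤ r) :
    pr Y r x ≤ 2 * Real.exp (-((d : ℝ) ^ 2 / (2 * r))) := by
  have hr0 : (0 : ℝ) < r := by exact_mod_cast hr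
  have h := VC_key Y τ hτ d x hx (d / r) (by positivity) r 0
  rw [T_zero, map_one, Module.End.one_apply, PP_pow] at h
  have h1 : Real.cosh ((d : ℝ) / r) ^ r ≤ Real.exp ((d : ℝ) ^ 2 / (2 * r)) := by
    calc Real.cosh ((d : ℝ) / r) ^ r ≤ (Real.exp (((d : ℝ) / r) ^ 2 / 2)) ^ r :=
          pow_le_pow_left₀ (Real.cosh_pos _).le (Real.cosh_le_exp_half_sq _) r
      _ = Real.exp ((d : ℝ) ^ 2 / (2 * r)) := by
          rw [← Real.exp_nat_mul]
          congr 1
          field_simp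
  have h2 : Real.exp (-((d : ℝ) / r * d)) * Real.exp ((d : ℝ) ^ 2 / (2 * r)) =
      Real.exp (-((d : ℝ) ^ 2 / (2 * r))) := by
    rw [← Real.exp_add]
    congr 1
    field_simp
    ring
  have h3 : Real.exp ((d : ℝ) / r * ((0 : ℤ) : ℝ)) + Real.exp (-((d : ℝ) / r * ((0 : ℤ) : ℝ))) = 2 := by
    simp
    norm_num
  rw [h3] at h
  have h4 := le_abs_self (pr Y r x)
  have h5 : Real.exp (-((d : ℝ) / r * d)) * Real.cosh ((d : ℝ) / r) ^ r ≤
      Real.exp (-((d : ℝ) ^ 2 / (2 * r))) := by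
    rw [← h2]
    exact mul_le_mul_of_nonneg_left h1 (Real.exp_pos _).le
  linarith

end Walk

end Pool.Agent.Lib.MP_1da1b4_al
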