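/-
MP_1da1b4_al (helper7): the switch-walk-switch random walk; conditional on the path the last point is
spread over at least 2 ^ D elements, D = the number of different points of the (inverted) orbit.
-/
import Mathlib
import Pool.Agent.Lib.MP_1da1b4_al.VC2
import Pool.Agent.Lib.MP_1da1b4_al.Heat

namespace Pool.Agent.Lib.MP_1da1b4_al

open Finset

/-! ### averages over lists -/

section EE

variable {κ : Type*} [Fintype κ]

/-- the average over all lists of length `r` -/
noncomputable def EE : ℕ → (List κ → ℝ) → ℝ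
  | 0, φ => φ []
  | r + 1, φ => (∑ k, EE r (fun l => φ (k :: l))) / Fintype.card κ

theorem EE_mono (r : ℕ) : ∀ φ ψ : List κ → ℝ, (∀ l, l.length = r → φ l ≤ ψ l) → EE r φ ≤ EE r ψ := by
  induction r with
  | zero => intro φ ψ h; exact h [] rfl
  | succ r ih =>
    intro φ ψ h
    unfold EE
    refine div_le_div_of_nonneg_right (Finset.sum_le_sum fun k _ => ih _ _ fun l hl => ?_)
      (Nat.cast_nonneg _)
    exact h (k :: l) (by rw [List.length_cons, hl])

theorem EE_add (r : ℕ) : ∀ φ ψ : List κ → ℝ, EE r (fun l => φ l + ψ l) = EE r φ + EE r ψ := by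
  induction r with
  | zero => intro φ ψ; rfl
  | succ r ih =>
    intro φ ψ
    unfold EE
    rw [← add_div, ← Finset.sum_add_distrib]
    congr 1
    exact Finset.sum_congr rfl fun k _ => ih _ _

theorem EE_mul (r : ℕ) (c : ℝ) : ∀ φ : List κ → ℝ, EE r (fun l => c * φ l) = c * EE r φ := by
  induction r with
  | zero => intro φ; rfl
  | succ r ih =>
    intro φ
    unfold EE
    rw [← mul_div_assoc, Finset.mul_sum]
    congr 1
    exact Finset.sum_congr rfl fun k _ => ih _

theorem EE_const [Nonempty κ] (r : ℕ) (c : ℝ) : EE r (fun _ : List κ => c) = c := by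
  induction r with
  | zero => rfl
  | succ r ih =>
    unfold EE
    rw [Finset.sum_congr rfl fun k _ => ih, Finset.sum_const, Finset.card_univ, nsmul_eq_mul]
    have : (0 : ℝ) < Fintype.card κ := by exact_mod_cast Fintype.card_pos
    field_simp

theorem EE_sum {α : Type*} (r : ℕ) (F : Finset α) (φ : α → List κ → ℝ) :
    EE r (fun l => ∑ x ∈ F, φ x l) = ∑ x ∈ F, EE r (φ x) := by
  classical
  induction F using Finset.induction_on with
  | empty =>
    simp only [Finset.sum_empty]
    have h := EE_mul r 0 (fun _ : List κ => (0 : ℝ))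
    simpa using h
  | insert a F ha ih =>
    simp only [Finset.sum_insert ha]
    rw [EE_add, ih]

end EE

section Path

variable {G X : Type*} [Group G] [MulAction G X] (S : Finset G) (E : Finset X) (o : X) (g : G)

/-- `g` or `1` -/
def gp (b : Bool) : G := if b then g else 1

/-- the steps -/
def YY (i : ({s // s ∈ S} × Bool) × Bool) : G := gp g i.2 * i.1.1.1 * (gp g i.1.2)⁻¹

/-- the inverse step -/
def tau (hinv : ∀ s ∈ S, s⁻¹ ∈ S) : (({s // s ∈ S} × Bool) × Bool) ≃ (({s // s ∈ S} × Bool) × Bool) where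
  toFun i := ((⟨i.1.1.1⁻¹, hinv _ i.1.1.2⟩, i.2), i.1.2)
  invFun i := ((⟨i.1.1.1⁻¹, hinv _ i.1.1.2⟩, i.2), i.1.2)
  left_inv := by rintro ⟨⟨⟨s, hs⟩, b⟩, a⟩; simp
  right_inv := by rintro ⟨⟨⟨s, hs⟩, b⟩, a⟩; simp

theorem YY_tau (hinv : ∀ s ∈ S, s⁻¹ ∈ S) (i) : YY S g (tau S hinv i) = (YY S g i)⁻¹ := by
  unfold YY tau
  simp [mul_assoc]

open Classical in
/-- the law of the last point, given the list of the `(s, b)` -/
noncomputable def FF : List ({s // s ∈ S} × Bool) → G → ℝ
  | [], x => if x = 1 then 1 else 0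
  | k :: l, x => (FF l ((YY S g (k, false))⁻¹ * x) + FF l ((YY S g (k, true))⁻¹ * x)) / 2

theorem FF_nonneg (l : List ({s // s ∈ S} × Bool)) : ∀ x, 0 ≤ FF S g l x := by
  classical
  induction l with
  | nil => intro x; rw [FF]; split_ifs <;> norm_num
  | cons k l ih =>
    intro x
    rw [FF]
    have h1 := ih ((YY S g (k, false))⁻¹ * x)
    have h2 := ih ((YY S g (k, true))⁻¹ * x)
    positivity

theorem pr_eq_EE (r : ℕ) : ∀ x, pr (YY S g) r x = EE r (fun l => FF S g l x) := by
  classical
  induction r with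
  | zero => intro x; rfl
  | succ r ih =>
    intro x
    unfold pr EE
    have e : ∀ k : {s // s ∈ S} × Bool, EE r (fun l => FF S g (k :: l) x) =
        (pr (YY S g) r ((YY S g (k, false))⁻¹ * x) + pr (YY S g) r ((YY S g (k, true))⁻¹ * x)) / 2 := by
      intro k
      have : (fun l => FF S g (k :: l) x) = fun l => (1 / 2 : ℝ) *
          (FF S g l ((YY S g (k, false))⁻¹ * x) + FF S g l ((YY S g (k, true))⁻¹ * x)) := by
        funext l
        rw [FF]
        ring
      rw [this, EE_mul, EE_add, ih, ih]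
      ring
    rw [Finset.sum_congr rfl fun k _ => e k, Fintype.sum_prod_type, Fintype.card_prod]
    have e2 : ∀ k : {s // s ∈ S} × Bool, ∑ a : Bool, pr (YY S g) r ((YY S g (k, a))⁻¹ * x) =
        pr (YY S g) r ((YY S g (k, false))⁻¹ * x) + pr (YY S g) r ((YY S g (k, true))⁻¹ * x) := by
      intro k
      rw [Fintype.sum_bool, add_comm]
    rw [Finset.sum_congr rfl fun k _ => e2 k, ← Finset.sum_div, Fintype.card_bool]
    push_cast
    rw [div_div, mul_comm]

theorem FF_sum_le (l : List ({s // s ∈ S} × Bool)) : ∀ F : Finset G, ∑ x ∈ F, FF S g l x ≤ 1 := by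
  classical
  induction l with
  | nil =>
    intro F
    have e : ∀ x, FF S g [] x = if x = 1 then (1 : ℝ) else 0 := fun x => rfl
    rw [Finset.sum_congr rfl fun x _ => e x, Finset.sum_ite_eq' F (1 : G)]
    split_ifs <;> norm_num
  | cons k l ih =>
    intro F
    have e : ∀ x, FF S g (k :: l) x =
        (FF S g l ((YY S g (k, false))⁻¹ * x) + FF S g l ((YY S g (k, true))⁻¹ * x)) / 2 := fun x => rfl
    rw [Finset.sum_congr rfl fun x _ => e x, ← Finset.sum_div, Finset.sum_add_distrib]
    have h : ∀ y : G, ∑ x ∈ F, FF S g l (y * x) ≤ 1 := by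
      intro y
      have e2 : ∑ x ∈ F, FF S g l (y * x) = ∑ z ∈ F.image (fun x => y * x), FF S g l z := by
        rw [Finset.sum_image]
        intro a _ b _ hab
        exact mul_left_cancel hab
      rw [e2]
      exact ih _
    have h1 := h (YY S g (k, false))⁻¹
    have h2 := h (YY S g (k, true))⁻¹
    linarith

open Classical in
/-- the places of the path -/
noncomputable def Pts : List ({s // s ∈ S} × Bool) → Finset X
  | [] => ∅
  | k :: l => E ∪ (Pts l).image (fun x => k.1.1 • x)

open Classical in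
/-- the number of times with a new place -/
noncomputable def DN : List ({s // s ∈ S} × Bool) → ℕ
  | [] => 0
  | k :: l => if E ⊆ (Pts S E l).image (fun x => k.1.1 • x) then DN l else DN l + 1

open Classical in
theorem Pts_cons (k : {s // s ∈ S} × Bool) (l : List ({s // s ∈ S} × Bool)) :
    Pts S E (k :: l) = E ∪ (Pts S E l).image (fun x => k.1.1 • x) := by rw [Pts]

open Classical in
theorem DN_pos (k : {s // s ∈ S} × Bool) (l : List ({s // s ∈ S} × Bool))
    (h : E ⊆ (Pts S E l).image (fun x => k.1.1 • x)) : DN S E (k :: l) = DN S E l := by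
  rw [DN]
  exact if_pos h

open Classical in
theorem DN_neg (k : {s // s ∈ S} × Bool) (l : List ({s // s ∈ S} × Bool))
    (h : ¬ E ⊆ (Pts S E l).image (fun x => k.1.1 • x)) : DN S E (k :: l) = DN S E l + 1 := by
  rw [DN]
  exact if_neg h

theorem Pts_card (l : List ({s // s ∈ S} × Bool)) : (Pts S E l).card ≤ E.card * DN S E l := by
  classical
  induction l with
  | nil =>
    show (∅ : Finset X).card ≤ _
    rw [Finset.card_empty]
    exact Nat.zero_le _
  | cons k l ih =>
    have hP : Pts S E (k :: l) = E ∪ (Pts S E l).image (fun x => k.1.1 • x) := Pts_cons S E k l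
    have hci : ((Pts S E l).image (fun x => k.1.1 • x)).card = (Pts S E l).card :=
      Finset.card_image_of_injective _ (MulAction.injective k.1.1)
    by_cases h : E ⊆ (Pts S E l).image (fun x => k.1.1 • x)
    · have hD : DN S E (k :: l) = DN S E l := DN_pos S E k l h
      rw [hP, Finset.union_eq_right.2 h, hci, hD]
      exact ih
    · have hD : DN S E (k :: l) = DN S E l + 1 := DN_neg S E k l h
      rw [hP, hD]
      refine (Finset.card_union_le _ _).trans ?_
      rw [hci, mul_add, mul_one]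
      omega

/-- the subgroup generated by the conjugates of `g` at the places inside `A` -/
def KK (A : Set X) : Subgroup G := Subgroup.closure {y | ∃ h : G, (∀ x ∈ E, h • x ∈ A) ∧ y = h * g * h⁻¹}

theorem KK_self {A : Set X} (h : ∀ x ∈ E, x ∈ A) : g ∈ KK E g A :=
  Subgroup.subset_closure ⟨1, fun x hx => by rw [one_smul]; exact h x hx, by simp⟩

theorem KK_conj {A A' : Set X} (s : G) (h : ∀ x ∈ A, s • x ∈ A') {n : G} (hn : n ∈ KK E g A) :
    s * n * s⁻¹ ∈ KK E g A' := by
  have key : KK E g A ≤ (KK E g A').comap (MulAut.conj s).toMonoidHom := by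
    refine (Subgroup.closure_le _).2 ?_
    rintro _ ⟨k, hk, rfl⟩
    show s * (k * g * k⁻¹) * s⁻¹ ∈ KK E g A'
    refine Subgroup.subset_closure ⟨s * k, fun x hx => ?_, by group⟩
    rw [mul_smul]
    exact h _ (hk x hx)
  exact key hn

theorem gp_mem {A : Set X} (h : g ∈ KK E g A) (b : Bool) : gp g b ∈ KK E g A := by
  cases b
  · exact Subgroup.one_mem _
  · exact h

theorem Pts_mem (l : List ({s // s ∈ S} × Bool)) (hl : l ≠ []) : ∀ x ∈ E, x ∈ Pts S E l := by
  classical
  cases l with
  | nil => exact absurd rfl hl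
  | cons k l =>
    intro x hx
    rw [Pts_cons]
    exact Finset.mem_union_left _ hx

theorem Pts_img (k : {s // s ∈ S} × Bool) (l : List ({s // s ∈ S} × Bool)) :
    ∀ y ∈ (Pts S E l : Set X), k.1.1 • y ∈ (Pts S E (k :: l) : Set X) := by
  classical
  intro y hy
  refine Finset.mem_coe.2 ?_
  rw [Pts_cons]
  exact Finset.mem_union_right _ (Finset.mem_image_of_mem (fun x => k.1.1 • x) (Finset.mem_coe.1 hy))

theorem FF_nil {x : G} (h : FF S g [] x ≠ 0) : x = 1 := by
  classical
  by_contra hx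
  apply h
  show (if x = 1 then (1 : ℝ) else 0) = 0
  rw [if_neg hx]

theorem FF_diff (l : List ({s // s ∈ S} × Bool)) : ∀ x x' : G, FF S g l x ≠ 0 → FF S g l x' ≠ 0 →
    x * x'⁻¹ ∈ KK E g (Pts S E l : Set X) := by
  classical
  induction l with
  | nil =>
    intro x x' hx hx'
    rw [FF_nil S g hx, FF_nil S g hx']
    simp
  | cons k l ih =>
    intro x x' hx hx'
    have hstep : ∀ y, FF S g (k :: l) y ≠ 0 → ∃ a : Bool, FF S g l ((YY S g (k, a))⁻¹ * y) ≠ 0 := by
      intro y hy
      by_contra hcon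
      push Not at hcon
      apply hy
      rw [FF, hcon false, hcon true]
      norm_num
    obtain ⟨a, ha⟩ := hstep x hx
    obtain ⟨a', ha'⟩ := hstep x' hx'
    set z := (YY S g (k, a))⁻¹ * x with hz
    set z' := (YY S g (k, a'))⁻¹ * x' with hz'
    have hgm : g ∈ KK E g (Pts S E (k :: l) : Set X) :=
      KK_self E g fun x hx => Finset.mem_coe.2 (Pts_mem S E (k :: l) (by simp) x hx)
    have e : x * x'⁻¹ = gp g a * (k.1.1 * ((gp g k.2)⁻¹ * (z * z'⁻¹) * gp g k.2) * k.1.1⁻¹) *
        (gp g a')⁻¹ := by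
      rw [hz, hz']
      unfold YY
      simp only [mul_inv_rev, inv_inv]
      group
    rw [e]
    refine Subgroup.mul_mem _ (Subgroup.mul_mem _ (gp_mem E g hgm a) ?_)
      (Subgroup.inv_mem _ (gp_mem E g hgm a'))
    refine KK_conj E g k.1.1 (Pts_img S E k l) ?_
    by_cases hl : l = []
    · subst hl
      have h1 : z = 1 := FF_nil S g ha
      have h2 : z' = 1 := FF_nil S g ha'
      rw [h1, h2]
      simp
    · have hg' : g ∈ KK E g (Pts S E l : Set X) :=
        KK_self E g fun x hx => Finset.mem_coe.2 (Pts_mem S E l hl x hx)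
      exact Subgroup.mul_mem _ (Subgroup.mul_mem _ (Subgroup.inv_mem _ (gp_mem E g hg' _))
        (ih z z' ha ha')) (gp_mem E g hg' _)

theorem FF_spread (hg : ∀ f ∈ E, g ∉ KK E g {x | x ≠ f}) (l : List ({s // s ∈ S} × Bool)) :
    ∀ x, FF S g l x * 2 ^ (DN S E l) ≤ 1 := by
  classical
  induction l with
  | nil =>
    intro x
    have e : FF S g [] x = if x = 1 then (1 : ℝ) else 0 := rfl
    rw [e]
    show (if x = 1 then (1 : ℝ) else 0) * 2 ^ 0 ≤ 1
    rw [pow_zero, mul_one]
    split_ifs <;> norm_num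
  | cons k l ih =>
    intro x
    have h0 := ih ((YY S g (k, false))⁻¹ * x)
    have h1 := ih ((YY S g (k, true))⁻¹ * x)
    by_cases ho : E ⊆ (Pts S E l).image (fun x => k.1.1 • x)
    · have hD : DN S E (k :: l) = DN S E l := DN_pos S E k l ho
      rw [hD, FF]
      linarith
    · have hD : DN S E (k :: l) = DN S E l + 1 := DN_neg S E k l ho
      rw [hD, FF, pow_succ]
      rw [Finset.not_subset] at ho
      obtain ⟨f, hfE, hf⟩ := ho
      have hzero : FF S g l ((YY S g (k, false))⁻¹ * x) = 0 ∨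
          FF S g l ((YY S g (k, true))⁻¹ * x) = 0 := by
        by_contra hcon
        push Not at hcon
        obtain ⟨c0, c1⟩ := hcon
        have hd := FF_diff S E g l _ _ c0 c1
        have e : (YY S g (k, false))⁻¹ * x * ((YY S g (k, true))⁻¹ * x)⁻¹ =
            gp g k.2 * (k.1.1⁻¹ * g * k.1.1) * (gp g k.2)⁻¹ := by
          unfold YY
          simp only [gp, mul_inv_rev, inv_inv]
          simp
          group
        rw [e] at hd
        apply hg f hfE
        by_cases hl : l = []
        · subst hl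
          have hd' : gp g k.2 * (k.1.1⁻¹ * g * k.1.1) * (gp g k.2)⁻¹ = 1 := by
            rw [← e, FF_nil S g c0, FF_nil S g c1]
            simp
          have hg1 : g = 1 := by
            have h3 : gp g k.2 * (k.1.1⁻¹ * g * k.1.1) = gp g k.2 := by
              rwa [mul_inv_eq_one] at hd'
            have h4 : k.1.1⁻¹ * g * k.1.1 = 1 := by
              rwa [mul_eq_left] at h3
            have h5 : k.1.1⁻¹ * g = k.1.1⁻¹ := by
              rw [← mul_inv_eq_one, inv_inv]
              exact h4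
            rwa [mul_eq_left] at h5
          have h6 : g ∈ (⊥ : Subgroup G) := Subgroup.mem_bot.2 hg1
          exact (bot_le : (⊥ : Subgroup G) ≤ _) h6
        · have hg' : g ∈ KK E g (Pts S E l : Set X) :=
            KK_self E g fun x hx => Finset.mem_coe.2 (Pts_mem S E l hl x hx)
          have h3 : k.1.1⁻¹ * g * k.1.1 ∈ KK E g (Pts S E l : Set X) := by
            have h4 := Subgroup.mul_mem _ (Subgroup.mul_mem _
              (Subgroup.inv_mem _ (gp_mem E g hg' k.2)) hd) (gp_mem E g hg' k.2)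
            have e4 : (gp g k.2)⁻¹ * (gp g k.2 * (k.1.1⁻¹ * g * k.1.1) * (gp g k.2)⁻¹) * gp g k.2 =
                k.1.1⁻¹ * g * k.1.1 := by group
            rwa [e4] at h4
          have h5 : k.1.1 * (k.1.1⁻¹ * g * k.1.1) * k.1.1⁻¹ ∈ KK E g {x | x ≠ f} := by
            refine KK_conj E g k.1.1 ?_ h3
            intro y hy hyo
            apply hf
            have hyo' : k.1.1 • y = f := hyo
            have hmem : k.1.1 • y ∈ (Pts S E l).image (fun x => k.1.1 • x) :=
              Finset.mem_image_of_mem (fun x => k.1.1 • x) (Finset.mem_coe.1 hy)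
            rw [hyo'] at hmem
            exact hmem
          have e5 : k.1.1 * (k.1.1⁻¹ * g * k.1.1) * k.1.1⁻¹ = g := by group
          rwa [e5] at h5
      rcases hzero with h | h
      · rw [h]
        linarith
      · rw [h]
        linarith

/-! ### the number of points -/

/-- the occupation function -/
noncomputable def NX : List ({s // s ∈ S} × Bool) → (X →₀ ℝ)
  | [] => 0
  | k :: l => Finsupp.single o 1 + TX k.1.1 (NX l)

theorem NX_nonneg (l : List ({s // s ∈ S} × Bool)) : ∀ x, 0 ≤ NX S o l x := by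
  classical
  induction l with
  | nil => intro x; exact le_refl _
  | cons k l ih =>
    intro x
    rw [NX, Finsupp.add_apply, TX_apply, Finsupp.single_apply]
    have h := ih (k.1.1⁻¹ • x)
    split_ifs <;> linarith

theorem NX_mass (l : List ({s // s ∈ S} × Bool)) : mass (NX S o l) = l.length := by
  induction l with
  | nil => simp [NX, mass]
  | cons k l ih =>
    rw [NX, map_add, mass_TX, ih]
    simp [mass]
    ring

theorem NX_supp (hoE : o ∈ E) (l : List ({s // s ∈ S} × Bool)) :
    ∀ x, NX S o l x ≠ 0 → x ∈ Pts S E l := by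
  classical
  induction l with
  | nil => intro x hx; exact absurd rfl hx
  | cons k l ih =>
    intro x hx
    rw [NX, Finsupp.add_apply, TX_apply, Finsupp.single_apply] at hx
    by_cases h : o = x
    · rw [← h]
      exact Pts_mem S E (k :: l) (by simp) o hoE
    · rw [if_neg h, zero_add] at hx
      have h2 := Pts_img S E k l (k.1.1⁻¹ • x) (Finset.mem_coe.2 (ih _ hx))
      rw [smul_inv_smul] at h2
      exact Finset.mem_coe.1 h2

theorem NX_cs (hoE : o ∈ E) (l : List ({s // s ∈ S} × Bool)) :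
    (l.length : ℝ) ^ 2 ≤ (E.card * DN S E l : ℝ) * BB (NX S o l) (NX S o l) := by
  classical
  have h1 : mass (NX S o l) = ∑ x ∈ Pts S E l, NX S o l x := by
    rw [mass_eq]
    refine Finset.sum_subset (fun x hx => NX_supp S E o hoE l x (Finsupp.mem_support_iff.1 hx)) ?_
    intro x _ hx
    exact Finsupp.notMem_support_iff.1 hx
  have h2 : ((Pts S E l).card : ℝ) ≤ E.card * DN S E l := by exact_mod_cast Pts_card S E l
  rw [← NX_mass S o l, h1]
  exact ((sq_sum_le_card_mul_sum_sq (s := Pts S E l) (f := fun x => NX S o l x)).trans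
    (mul_le_mul_of_nonneg_left (sum_sq_le_BB _ _) (Nat.cast_nonneg _))).trans
    (mul_le_mul_of_nonneg_right h2 (BB_pos _))

omit [Group G] in
theorem avg_prod (h : G → ℝ) : (∑ k : {s // s ∈ S} × Bool, h k.1.1) /
    (Fintype.card ({s // s ∈ S} × Bool) : ℝ) = ((S.card : ℝ))⁻¹ * ∑ s ∈ S, h s := by
  rw [Fintype.sum_prod_type]
  have e : ∀ s : {s // s ∈ S}, ∑ _b : Bool, h s.1 = 2 * h s.1 := by
    intro s
    rw [Fintype.sum_bool]
    ring
  rw [Finset.sum_congr rfl fun s _ => e s, ← Finset.mul_sum, Fintype.card_prod, Fintype.card_coe,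
    Fintype.card_bool, Finset.sum_coe_sort S h]
  push_cast
  rcases Nat.eq_zero_or_pos S.card with h0 | h0
  · rw [h0]; simp
  · have : (0 : ℝ) < S.card := by exact_mod_cast h0
    field_simp

theorem NX_mean (h1 : (1 : G) ∈ S) (r : ℕ) :
    ∀ y, EE r (fun l => NX S o l y) = ∑ t ∈ Finset.range r, ff S o t y := by
  classical
  have : Nonempty ({s // s ∈ S} × Bool) := ⟨(⟨1, h1⟩, true)⟩
  induction r with
  | zero => intro y; rw [Finset.range_zero, Finset.sum_empty]; rfl
  | succ r ih =>
    intro y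
    unfold EE
    have e : ∀ k : {s // s ∈ S} × Bool, EE r (fun l => NX S o (k :: l) y) =
        Finsupp.single o (1 : ℝ) y + ∑ t ∈ Finset.range r, ff S o t (k.1.1⁻¹ • y) := by
      intro k
      have e1 : (fun l => NX S o (k :: l) y) =
          fun l => Finsupp.single o (1 : ℝ) y + NX S o l (k.1.1⁻¹ • y) := by
        funext l
        rw [NX, Finsupp.add_apply, TX_apply]
      rw [e1, EE_add, EE_const, ih]
    rw [Finset.sum_congr rfl fun k _ => e k,
      avg_prod S (fun s => Finsupp.single o (1 : ℝ) y + ∑ t ∈ Finset.range r, ff S o t (s⁻¹ • y))]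
    rw [Finset.sum_range_succ', Finset.sum_add_distrib, mul_add]
    have hm : (0 : ℝ) < S.card := by exact_mod_cast Finset.card_pos.2 ⟨1, h1⟩
    have e2 : ((S.card : ℝ))⁻¹ * ∑ _s ∈ S, Finsupp.single o (1 : ℝ) y = ff S o 0 y := by
      rw [Finset.sum_const, nsmul_eq_mul, ff]
      field_simp
    have e3 : ((S.card : ℝ))⁻¹ * ∑ s ∈ S, ∑ t ∈ Finset.range r, ff S o t (s⁻¹ • y) =
        ∑ t ∈ Finset.range r, ff S o (t + 1) y := by
      rw [Finset.sum_comm, Finset.mul_sum]
      refine Finset.sum_congr rfl fun t _ => ?_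
      rw [ff, QX_apply]
    rw [e2, e3, add_comm]

theorem sum_inv_sqrt (r : ℕ) : ∑ t ∈ Finset.range r, 1 / Real.sqrt ((t + 1 : ℕ) : ℝ) ≤
    2 * Real.sqrt r := by
  induction r with
  | zero => simp
  | succ r ih =>
    rw [Finset.sum_range_succ]
    have hr : (0 : ℝ) ≤ r := Nat.cast_nonneg r
    have h1 : (0 : ℝ) < ((r + 1 : ℕ) : ℝ) := by positivity
    set a := Real.sqrt r
    set b := Real.sqrt ((r + 1 : ℕ) : ℝ)
    have ha : a ^ 2 = r := Real.sq_sqrt hr
    have hb : b ^ 2 = r + 1 := by
      have := Real.sq_sqrt h1.le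
      push_cast at this
      exact_mod_cast this
    have hb0 : 0 < b := Real.sqrt_pos.2 h1
    have ha0 : 0 ≤ a := Real.sqrt_nonneg _
    have h2 : 1 / b ≤ 2 * b - 2 * a := by
      rw [div_le_iff₀ hb0]
      nlinarith [sq_nonneg (b - a)]
    linarith

theorem Z_mean (h1 : (1 : G) ∈ S) (hinv : ∀ s ∈ S, s⁻¹ ∈ S)
    (hgen : Subgroup.closure (S : Set G) = ⊤) (ho : (MulAction.orbit G o).Infinite) (r : ℕ) :
    EE r (fun l => BB (NX S o l) (NX S o l)) ≤ r * (1 + 16 * S.card * Real.sqrt r) := by
  classical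
  have : Nonempty ({s // s ∈ S} × Bool) := ⟨(⟨1, h1⟩, true)⟩
  induction r with
  | zero =>
    show BB (NX S o []) (NX S o []) ≤ _
    rw [NX]
    simp
  | succ r ih =>
    unfold EE
    have e : ∀ k : {s // s ∈ S} × Bool, EE r (fun l => BB (NX S o (k :: l)) (NX S o (k :: l))) =
        1 + 2 * ∑ t ∈ Finset.range r, ff S o t (k.1.1⁻¹ • o) +
          EE r (fun l => BB (NX S o l) (NX S o l)) := by
      intro k
      have e1 : (fun l => BB (NX S o (k :: l)) (NX S o (k :: l))) =
          fun l => (1 + 2 * NX S o l (k.1.1⁻¹ • o)) + BB (NX S o l) (NX S o l) := by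
        funext l
        rw [NX]
        simp only [map_add, LinearMap.add_apply]
        rw [BB_single_left, BB_single_left, BB_single_right, BB_TX_self, TX_apply,
          Finsupp.single_eq_same]
        ring
      rw [e1, EE_add, EE_add, EE_const, EE_mul, NX_mean S o h1]
    rw [Finset.sum_congr rfl fun k _ => e k,
      avg_prod S (fun s => 1 + 2 * ∑ t ∈ Finset.range r, ff S o t (s⁻¹ • o) +
          EE r (fun l => BB (NX S o l) (NX S o l)))]
    have hm : (0 : ℝ) < S.card := by exact_mod_cast Finset.card_pos.2 ⟨1, h1⟩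
    rw [Finset.sum_add_distrib, Finset.sum_add_distrib, mul_add, mul_add]
    have e2 : ((S.card : ℝ))⁻¹ * ∑ _s ∈ S, (1 : ℝ) = 1 := by
      rw [Finset.sum_const, nsmul_eq_mul]
      field_simp
    have e3 : ((S.card : ℝ))⁻¹ * ∑ _s ∈ S, EE r (fun l => BB (NX S o l) (NX S o l)) =
        EE r (fun l => BB (NX S o l) (NX S o l)) := by
      rw [Finset.sum_const, nsmul_eq_mul]
      field_simp
    have e4 : ((S.card : ℝ))⁻¹ * ∑ s ∈ S, 2 * ∑ t ∈ Finset.range r, ff S o t (s⁻¹ • o) =
        2 * ∑ t ∈ Finset.range r, ff S o (t + 1) o := by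
      rw [← Finset.mul_sum, Finset.sum_comm, mul_left_comm, Finset.mul_sum]
      congr 1
      refine Finset.sum_congr rfl fun t _ => ?_
      rw [ff, QX_apply]
    rw [e2, e3, e4]
    have h2 : ∑ t ∈ Finset.range r, ff S o (t + 1) o ≤ 8 * S.card * Real.sqrt r := by
      calc ∑ t ∈ Finset.range r, ff S o (t + 1) o
          ≤ ∑ t ∈ Finset.range r, 4 * (S.card : ℝ) * (1 / Real.sqrt ((t + 1 : ℕ) : ℝ)) := by
            refine Finset.sum_le_sum fun t _ => ?_
            have := ff_return S o h1 hinv hgen ho (t + 1) (Nat.le_add_left 1 t)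
            rw [mul_one_div]
            exact this
        _ = 4 * (S.card : ℝ) * ∑ t ∈ Finset.range r, 1 / Real.sqrt ((t + 1 : ℕ) : ℝ) := by
            rw [Finset.mul_sum]
        _ ≤ 4 * (S.card : ℝ) * (2 * Real.sqrt r) :=
            mul_le_mul_of_nonneg_left (sum_inv_sqrt r) (by positivity)
        _ = _ := by ring
    have h3 : Real.sqrt r ≤ Real.sqrt ((r + 1 : ℕ) : ℝ) := Real.sqrt_le_sqrt (by push_cast; linarith)
    have hr : (0 : ℝ) ≤ r := Nat.cast_nonneg r
    have h4 : 16 * (S.card : ℝ) * Real.sqrt r ≤ 16 * S.card * Real.sqrt ((r + 1 : ℕ) : ℝ) :=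
      mul_le_mul_of_nonneg_left h3 (by positivity)
    have h5 : (r : ℝ) * (1 + 16 * S.card * Real.sqrt r) ≤
        r * (1 + 16 * S.card * Real.sqrt ((r + 1 : ℕ) : ℝ)) :=
      mul_le_mul_of_nonneg_left (by linarith) hr
    have e5 : (((r + 1 : ℕ) : ℝ)) * (1 + 16 * S.card * Real.sqrt ((r + 1 : ℕ) : ℝ)) =
        r * (1 + 16 * S.card * Real.sqrt ((r + 1 : ℕ) : ℝ)) +
          (1 + 16 * S.card * Real.sqrt ((r + 1 : ℕ) : ℝ)) := by
      push_cast
      ring
    rw [e5]
    linarith

/-- with probability at least one half there are many new places -/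
theorem few_points (h1 : (1 : G) ∈ S) (hinv : ∀ s ∈ S, s⁻¹ ∈ S)
    (hgen : Subgroup.closure (S : Set G) = ⊤) (hoE : o ∈ E)
    (ho : (MulAction.orbit G o).Infinite) (r D : ℕ)
    (hr : 1 ≤ r) (hD : 34 * ((S.card : ℝ) * E.card) * D ≤ Real.sqrt r) :
    EE r (fun l => if DN S E l < D then (1 : ℝ) else 0) ≤ 1 / 2 := by
  have hm : (1 : ℝ) ≤ S.card := by exact_mod_cast Finset.card_pos.2 ⟨1, h1⟩
  have hr1 : (1 : ℝ) ≤ r := by exact_mod_cast hr
  have hZ := Z_mean S o h1 hinv hgen ho r
  have hs1 : 1 ≤ Real.sqrt r := by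
    rw [Real.le_sqrt (by norm_num) (by linarith)]
    linarith
  have h2 : EE r (fun l => if DN S E l < D then (1 : ℝ) else 0) ≤
      EE r (fun l => ((E.card : ℝ) * D) / r ^ 2 * BB (NX S o l) (NX S o l)) := by
    refine EE_mono r _ _ fun l hl => ?_
    have hcs := NX_cs S E o hoE l
    rw [hl] at hcs
    have hb := BB_pos (NX S o l)
    by_cases h : DN S E l < D
    · rw [if_pos h, div_mul_eq_mul_div, le_div_iff₀ (by positivity), one_mul]
      refine hcs.trans (mul_le_mul_of_nonneg_right ?_ hb)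
      refine mul_le_mul_of_nonneg_left ?_ (Nat.cast_nonneg _)
      exact_mod_cast h.le
    · rw [if_neg h]
      positivity
  rw [EE_mul] at h2
  refine h2.trans ?_
  have h3 : ((E.card : ℝ) * D) / r ^ 2 * EE r (fun l => BB (NX S o l) (NX S o l)) ≤
      ((E.card : ℝ) * D) / r ^ 2 * (r * (1 + 16 * S.card * Real.sqrt r)) :=
    mul_le_mul_of_nonneg_left hZ (by positivity)
  refine h3.trans ?_
  have e : ((E.card : ℝ) * D) / r ^ 2 * (r * (1 + 16 * S.card * Real.sqrt r)) =
      ((E.card : ℝ) * D * (1 + 16 * S.card * Real.sqrt r)) / r := by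
    field_simp
  rw [e, div_le_iff₀ (by linarith)]
  have hD0 : (0 : ℝ) ≤ (E.card : ℝ) * D := by positivity
  have hsq : Real.sqrt r * Real.sqrt r = r := Real.mul_self_sqrt (by linarith)
  have h4 : 1 + 16 * (S.card : ℝ) * Real.sqrt r ≤ 17 * S.card * Real.sqrt r := by nlinarith
  calc (E.card : ℝ) * D * (1 + 16 * S.card * Real.sqrt r) ≤
        (E.card : ℝ) * D * (17 * S.card * Real.sqrt r) :=
        mul_le_mul_of_nonneg_left h4 hD0
    _ = (34 * ((S.card : ℝ) * E.card) * D) * Real.sqrt r / 2 := by ring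
    _ ≤ Real.sqrt r * Real.sqrt r / 2 := by
        have := mul_le_mul_of_nonneg_right hD (Real.sqrt_nonneg r)
        linarith
    _ = 1 / 2 * r := by rw [hsq]; ring

/-- a small set is hit with probability at most one half, up to `|F| / 2 ^ D` -/
theorem small_set (h1 : (1 : G) ∈ S) (hinv : ∀ s ∈ S, s⁻¹ ∈ S)
    (hgen : Subgroup.closure (S : Set G) = ⊤) (hoE : o ∈ E) (ho : (MulAction.orbit G o).Infinite)
    (hg : ∀ f ∈ E, g ∉ KK E g {x | x ≠ f}) (r D : ℕ)
    (hr : 1 ≤ r) (hD : 34 * ((S.card : ℝ) * E.card) * D ≤ Real.sqrt r) (F : Finset G) :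
    ∑ x ∈ F, pr (YY S g) r x ≤ 1 / 2 + F.card / 2 ^ D := by
  have : Nonempty ({s // s ∈ S} × Bool) := ⟨(⟨1, h1⟩, true)⟩
  rw [Finset.sum_congr rfl fun x _ => pr_eq_EE S g r x, ← EE_sum]
  have h2 : EE r (fun l => ∑ x ∈ F, FF S g l x) ≤
      EE r (fun l => (if DN S E l < D then (1 : ℝ) else 0) + F.card / 2 ^ D) := by
    refine EE_mono r _ _ fun l _ => ?_
    by_cases h : DN S E l < D
    · rw [if_pos h]
      have h3 := FF_sum_le S g l F
      have h4 : (0 : ℝ) ≤ F.card / 2 ^ D := by positivity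
      linarith
    · rw [if_neg h, zero_add]
      push Not at h
      have h3 : ∀ x ∈ F, FF S g l x ≤ 1 / 2 ^ D := by
        intro x _
        have h4 := FF_spread S E g hg l x
        have h5 : (2 : ℝ) ^ D ≤ 2 ^ (DN S E l) := pow_le_pow_right₀ (by norm_num) h
        rw [le_div_iff₀ (by positivity)]
        exact (mul_le_mul_of_nonneg_left h5 (FF_nonneg S g l x)).trans h4
      calc ∑ x ∈ F, FF S g l x ≤ ∑ _x ∈ F, (1 : ℝ) / 2 ^ D := Finset.sum_le_sum h3
        _ = F.card / 2 ^ D := by rw [Finset.sum_const, nsmul_eq_mul, mul_one_div]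
  rw [EE_add, EE_const] at h2
  have h3 := few_points S E o h1 hinv hgen hoE ho r D hr hD
  linarith

end Path

end Pool.Agent.Lib.MP_1da1b4_al
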