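/-
MP_1da1b4_al (helper7): growth at least exp (r ^ (2/3)) from the spread of the random walk and the
inequality of Varopoulos and Carne.
-/
import Mathlib
import Pool.Agent.Lib.MP_1da1b4_al.Path

namespace Pool.Agent.Lib.MP_1da1b4_al

open Finset
open scoped Pointwise

section

variable {G X : Type*} [Group G] [DecidableEq G] [MulAction G X] (S : Finset G) (E : Finset X) (o : X) (g : G)

omit [MulAction G X] in
theorem pow_symm (hinv : ∀ s ∈ S, s⁻¹ ∈ S) (n : ℕ) {x : G} (hx : x ∈ S ^ n) : x⁻¹ ∈ S ^ n := by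
  have e : S⁻¹ = S := by
    ext y
    rw [Finset.mem_inv']
    exact ⟨fun h => by simpa using hinv _ h, fun h => hinv _ h⟩
  have h1 : x⁻¹ ∈ (S ^ n)⁻¹ := Finset.inv_mem_inv hx
  rwa [← inv_pow, e] at h1

omit [MulAction G X] in
theorem pow_mono (h1 : (1 : G) ∈ S) {a b : ℕ} (h : a ≤ b) : S ^ a ⊆ S ^ b :=
  Finset.pow_subset_pow_right h1 h

omit [MulAction G X] in
theorem reach (hinv : ∀ s ∈ S, s⁻¹ ∈ S)
    (hgen : Subgroup.closure (S : Set G) = ⊤) (x : G) : ∃ n : ℕ, x ∈ S ^ n := by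
  have hx : x ∈ Subgroup.closure (S : Set G) := by rw [hgen]; exact Subgroup.mem_top x
  induction hx using Subgroup.closure_induction with
  | mem s hs => exact ⟨1, by rw [pow_one]; exact hs⟩
  | one => exact ⟨0, by rw [pow_zero]; exact Finset.mem_one.2 rfl⟩
  | mul a b _ _ ha hb =>
    obtain ⟨m, hm⟩ := ha
    obtain ⟨n, hn⟩ := hb
    exact ⟨m + n, by rw [pow_add]; exact Finset.mul_mem_mul hm hn⟩
  | inv a _ ha =>
    obtain ⟨m, hm⟩ := ha
    exact ⟨m, pow_symm S hinv m hm⟩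

omit [MulAction G X] in
theorem YY_mem (h1 : (1 : G) ∈ S) (hinv : ∀ s ∈ S, s⁻¹ ∈ S) (l : ℕ) (hg : g ∈ S ^ l)
    (i) : YY S g i ∈ S ^ (2 * l + 1) := by
  have h0 : (1 : G) ∈ S ^ l := pow_mono S h1 (Nat.zero_le l) (by rw [pow_zero]; exact Finset.mem_one.2 rfl)
  have h2 : ∀ b, gp g b ∈ S ^ l := by
    intro b
    cases b
    · exact h0
    · exact hg
  unfold YY
  have e : S ^ (2 * l + 1) = S ^ l * S ^ 1 * S ^ l := by
    rw [← pow_add, ← pow_add]
    congr 1
    omega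
  rw [e]
  refine Finset.mul_mem_mul (Finset.mul_mem_mul (h2 _) ?_) (pow_symm S hinv l (h2 _))
  rw [pow_one]
  exact i.1.1.2

omit [MulAction G X] in
theorem pr_supp (h1 : (1 : G) ∈ S) (hinv : ∀ s ∈ S, s⁻¹ ∈ S) (l : ℕ) (hg : g ∈ S ^ l) (j : ℕ) :
    ∀ x, pr (YY S g) j x ≠ 0 → x ∈ S ^ ((2 * l + 1) * j) := by
  classical
  induction j with
  | zero =>
    intro x hx
    have hx1 : x = 1 := by
      by_contra h
      apply hx
      unfold pr
      rw [if_neg h]
    rw [hx1, Nat.mul_zero, pow_zero]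
    exact Finset.mem_one.2 rfl
  | succ j ih =>
    intro x hx
    have h2 : ∑ i, pr (YY S g) j ((YY S g i)⁻¹ * x) ≠ 0 := by
      intro h
      apply hx
      show (∑ i, pr (YY S g) j ((YY S g i)⁻¹ * x)) / _ = 0
      rw [h, zero_div]
    obtain ⟨i, -, hi⟩ := Finset.exists_ne_zero_of_sum_ne_zero h2
    have h3 := ih _ hi
    have h4 : x = YY S g i * ((YY S g i)⁻¹ * x) := by group
    have e : (2 * l + 1) * (j + 1) = (2 * l + 1) + (2 * l + 1) * j := by ring
    rw [h4, e, pow_add]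
    exact Finset.mul_mem_mul (YY_mem S g h1 hinv l hg i) h3

omit [DecidableEq G] [MulAction G X] in
theorem pr_nonneg (r : ℕ) : ∀ x, 0 ≤ pr (YY S g) r x := by
  classical
  induction r with
  | zero =>
    intro x
    show (0 : ℝ) ≤ if x = 1 then (1 : ℝ) else 0
    split_ifs <;> norm_num
  | succ r ih =>
    intro x
    show (0 : ℝ) ≤ (∑ i, pr (YY S g) r ((YY S g i)⁻¹ * x)) / _
    exact div_nonneg (Finset.sum_nonneg fun i _ => ih _) (Nat.cast_nonneg _)

omit [DecidableEq G] [MulAction G X] in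
theorem mass_LL (h : G) (f : G →₀ ℝ) : mass (LL h f) = mass f := by
  induction f using Finsupp.induction_linear with
  | zero => simp
  | add f g' hf hg => rw [map_add, map_add, hf, hg, map_add]
  | single y b =>
    rw [LL_single]
    simp [mass]

omit [DecidableEq G] [MulAction G X] in
theorem mass_pow {ι : Type*} [Fintype ι] [Nonempty ι] (Y : ι → G) (r : ℕ) :
    mass (((PP Y) ^ r) (Finsupp.single (1 : G) (1 : ℝ))) = 1 := by
  induction r with
  | zero => simp [mass]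
  | succ r ih =>
    rw [pow_succ', Module.End.mul_apply]
    set f := ((PP Y) ^ r) (Finsupp.single (1 : G) (1 : ℝ))
    unfold PP
    rw [LinearMap.smul_apply, LinearMap.sum_apply, map_smul, map_sum]
    simp only [mass_LL, ih, Finset.sum_const, Finset.card_univ, nsmul_eq_mul, smul_eq_mul, mul_one]
    have : (0 : ℝ) < Fintype.card ι := by exact_mod_cast Fintype.card_pos
    field_simp

theorem geo (K : ℕ) : ∑ k ∈ Finset.range K, 2 * ((1 : ℝ) / 20) ^ (k + 1) ≤ 2 / 19 := by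
  have h : ∑ k ∈ Finset.range K, 2 * ((1 : ℝ) / 20) ^ (k + 1) = 2 / 19 * (1 - (1 / 20) ^ K) := by
    induction K with
    | zero => simp
    | succ K ih =>
      rw [Finset.sum_range_succ, ih, pow_succ]
      ring
  rw [h]
  have : (0 : ℝ) ≤ (1 / 20) ^ K := by positivity
  linarith

/-- one block of the tail -/
theorem block (b n L r : ℝ) (hb : 1 ≤ b) (hL : 0 < L) (hr : 0 < r)
    (hn : 2 * L ^ 2 * r * (2 * Real.log b + 3) ≤ n ^ 2) (k : ℕ) (hk : 1 ≤ k) :
    b ^ (k + 1) * (2 * Real.exp (-((k * n / L) ^ 2 / (2 * r)))) ≤ 2 * (1 / 20) ^ k := by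
  have hb0 : 0 < b := by linarith
  have hB : 0 ≤ Real.log b := Real.log_nonneg hb
  have hk1 : (1 : ℝ) ≤ k := by exact_mod_cast hk
  have e1 : b ^ (k + 1) = Real.exp ((k + 1) * Real.log b) := by
    rw [mul_comm, Real.exp_mul, Real.exp_log hb0]
    have : ((k : ℝ) + 1) = ((k + 1 : ℕ) : ℝ) := by push_cast; ring
    rw [this, Real.rpow_natCast]
  have e2 : (k * n / L) ^ 2 / (2 * r) = k ^ 2 * (n ^ 2 / (2 * L ^ 2 * r)) := by
    field_simp
  have h1 : 2 * Real.log b + 3 ≤ n ^ 2 / (2 * L ^ 2 * r) := by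
    rw [le_div_iff₀ (by positivity)]
    linarith
  have h2 : (k : ℝ) * (2 * Real.log b + 3) ≤ (k * n / L) ^ 2 / (2 * r) := by
    rw [e2]
    have h3 : (k : ℝ) * (2 * Real.log b + 3) ≤ k ^ 2 * (2 * Real.log b + 3) := by
      have : (k : ℝ) ≤ k ^ 2 := by nlinarith
      exact mul_le_mul_of_nonneg_right this (by linarith)
    exact h3.trans (mul_le_mul_of_nonneg_left h1 (by positivity))
  have h3 : ((k : ℝ) + 1) * Real.log b + -((k * n / L) ^ 2 / (2 * r)) ≤ k * (-3) := by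
    nlinarith
  have h4 : Real.exp (-3) ≤ 1 / 20 := by
    rw [Real.exp_neg, inv_eq_one_div]
    apply one_div_le_one_div_of_le (by norm_num)
    have h5 : Real.exp 3 = Real.exp 1 ^ 3 := by
      rw [← Real.exp_nat_mul]
      norm_num
    rw [h5]
    have h6 := Real.exp_one_gt_d9
    have h7 : (2.7182818283 : ℝ) ^ 3 ≤ Real.exp 1 ^ 3 := pow_le_pow_left₀ (by norm_num) h6.le 3
    refine le_trans ?_ h7
    norm_num
  calc b ^ (k + 1) * (2 * Real.exp (-((k * n / L) ^ 2 / (2 * r))))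
      = 2 * Real.exp (((k : ℝ) + 1) * Real.log b + -((k * n / L) ^ 2 / (2 * r))) := by
        rw [e1, Real.exp_add]
        ring
    _ ≤ 2 * Real.exp (k * (-3)) := by
        have := Real.exp_le_exp.2 h3
        linarith
    _ = 2 * Real.exp (-3) ^ k := by rw [Real.exp_nat_mul]
    _ ≤ 2 * (1 / 20) ^ k := by
        have := pow_le_pow_left₀ (Real.exp_pos (-3)).le h4 k
        linarith

/-- the tail of the random walk -/
theorem tail (h1 : (1 : G) ∈ S) (hinv : ∀ s ∈ S, s⁻¹ ∈ S)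
    (hgen : Subgroup.closure (S : Set G) = ⊤) (l : ℕ) (hg : g ∈ S ^ l) (n r : ℕ)
    (hr : 1 ≤ r)
    (hnr : 2 * ((2 * l + 1 : ℕ) : ℝ) ^ 2 * r * (2 * Real.log ((S ^ n).card : ℝ) + 3) ≤ (n : ℝ) ^ 2)
    (F : Finset G) (hF : ∀ x ∈ F, x ∉ S ^ n) : ∑ x ∈ F, pr (YY S g) r x ≤ 2 / 19 := by
  classical
  set L : ℕ := 2 * l + 1 with hL
  have hL0 : (0 : ℝ) < (L : ℝ) := by
    have : 0 < L := by omega
    exact_mod_cast this
  have hr0 : (0 : ℝ) < r := by exact_mod_cast hr
  have hcard : 1 ≤ (S ^ n).card := by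
    refine Finset.card_pos.2 ⟨1, pow_mono S h1 (Nat.zero_le n) ?_⟩
    rw [pow_zero]
    exact Finset.mem_one.2 rfl
  have hb : (1 : ℝ) ≤ ((S ^ n).card : ℝ) := by exact_mod_cast hcard
  have hlogb : 0 ≤ Real.log ((S ^ n).card : ℝ) := Real.log_nonneg hb
  have hn0 : 0 < n := by
    rcases Nat.eq_zero_or_pos n with h | h
    · exfalso
      rw [h] at hnr
      have h2 : 0 < 2 * (L : ℝ) ^ 2 * r * (2 * Real.log ((S ^ 0).card : ℝ) + 3) := by
        have : 0 ≤ Real.log ((S ^ 0).card : ℝ) := by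
          rw [pow_zero, Finset.card_one]
          simp
        positivity
      have h3 : ((0 : ℕ) : ℝ) ^ 2 = 0 := by norm_num
      rw [h3] at hnr
      linarith
    · exact h
  -- a common bound for the length
  have hK : ∃ K : ℕ, ∀ x ∈ F, x ∈ S ^ ((K + 1) * n) := by
    choose m hm using fun x : G => reach S hinv hgen x
    refine ⟨∑ x ∈ F, m x, fun x hx => pow_mono S h1 ?_ (hm x)⟩
    have h2 : m x ≤ ∑ x ∈ F, m x := Finset.single_le_sum (fun _ _ => Nat.zero_le _) hx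
    nlinarith
  obtain ⟨K, hK⟩ := hK
  let c : ℕ → ℝ := fun k => 2 * Real.exp (-((((k + 1 : ℕ) : ℝ) * n / L) ^ 2 / (2 * r)))
  let Dk : ℕ → Finset G := fun k => S ^ ((k + 2) * n)
  have hpt : ∀ x ∈ F, pr (YY S g) r x ≤ ∑ k ∈ Finset.range K, (if x ∈ Dk k then c k else 0) := by
    intro x hx
    have hex : ∃ j : ℕ, x ∈ S ^ ((j + 1) * n) := ⟨K, hK x hx⟩
    set j := Nat.find hex with hj
    have hjx : x ∈ S ^ ((j + 1) * n) := Nat.find_spec hex
    have hjK : j ≤ K := Nat.find_min' hex (hK x hx)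
    have hj0 : j ≠ 0 := by
      intro h0
      rw [h0, Nat.zero_add, Nat.one_mul] at hjx
      exact hF x hx hjx
    obtain ⟨k, hk⟩ := Nat.exists_eq_succ_of_ne_zero hj0
    have hkK : k < K := by omega
    have hxk : x ∉ S ^ ((k + 1) * n) := Nat.find_min hex (by omega)
    have hxD : x ∈ Dk k := by
      show x ∈ S ^ ((k + 2) * n)
      have : k + 2 = j + 1 := by omega
      rw [this]
      exact hjx
    have hle : pr (YY S g) r x ≤ c k := by
      have hvan : ∀ i < (k + 1) * n / L + 1, pr (YY S g) i x = 0 := by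
        intro i hi
        by_contra hne
        apply hxk
        refine pow_mono S h1 ?_ (pr_supp S g h1 hinv l hg i x hne)
        have h2 : i ≤ (k + 1) * n / L := Nat.lt_succ_iff.1 hi
        calc L * i ≤ L * ((k + 1) * n / L) := Nat.mul_le_mul_left L h2
          _ ≤ (k + 1) * n := Nat.mul_div_le _ _
      have hv := VC (YY S g) (tau S hinv) (YY_tau S g hinv) _ x hvan r hr
      refine hv.trans ?_
      show _ ≤ 2 * Real.exp (-((((k + 1 : ℕ) : ℝ) * n / L) ^ 2 / (2 * r)))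
      have h3 : (((k + 1 : ℕ) : ℝ) * n / L) ≤ (((k + 1) * n / L + 1 : ℕ) : ℝ) := by
        have h4 : ((k + 1) * n : ℕ) < L * ((k + 1) * n / L + 1) := by
          have := Nat.lt_mul_div_succ ((k + 1) * n) (show 0 < L by omega)
          exact this
        rw [div_le_iff₀ hL0]
        have h5 : (((k + 1) * n : ℕ) : ℝ) < ((L * ((k + 1) * n / L + 1) : ℕ) : ℝ) := by
          exact_mod_cast h4
        rw [Nat.cast_mul L, Nat.cast_mul (k + 1) n] at h5
        linarith
      have h6 : (((k + 1 : ℕ) : ℝ) * n / L) ^ 2 / (2 * r) ≤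
          ((((k + 1) * n / L + 1 : ℕ) : ℝ)) ^ 2 / (2 * r) := by
        refine div_le_div_of_nonneg_right ?_ (by positivity)
        exact pow_le_pow_left₀ (by positivity) h3 2
      have h7 := Real.exp_le_exp.2 (neg_le_neg h6)
      linarith
    refine hle.trans ?_
    have h8 := Finset.single_le_sum (f := fun k => if x ∈ Dk k then c k else 0)
      (fun i _ => by
        show (0 : ℝ) ≤ if x ∈ Dk i then c i else 0
        split_ifs
        · exact mul_nonneg (by norm_num) (Real.exp_pos _).le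
        · exact le_refl _) (Finset.mem_range.2 hkK)
    simp only [if_pos hxD] at h8
    exact h8
  calc ∑ x ∈ F, pr (YY S g) r x
      ≤ ∑ x ∈ F, ∑ k ∈ Finset.range K, (if x ∈ Dk k then c k else 0) := Finset.sum_le_sum hpt
    _ = ∑ k ∈ Finset.range K, ∑ x ∈ F, (if x ∈ Dk k then c k else 0) := Finset.sum_comm
    _ ≤ ∑ k ∈ Finset.range K, 2 * ((1 : ℝ) / 20) ^ (k + 1) := by
        refine Finset.sum_le_sum fun k _ => ?_
        have hc0 : 0 ≤ c k := mul_nonneg (by norm_num) (Real.exp_pos _).le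
        calc ∑ x ∈ F, (if x ∈ Dk k then c k else 0)
            = ((F.filter (fun x => x ∈ Dk k)).card : ℝ) * c k := by
              rw [← Finset.sum_filter, Finset.sum_const, nsmul_eq_mul]
          _ ≤ ((Dk k).card : ℝ) * c k := by
              refine mul_le_mul_of_nonneg_right ?_ hc0
              have : (F.filter (fun x => x ∈ Dk k)).card ≤ (Dk k).card :=
                Finset.card_le_card fun x hx => (Finset.mem_filter.1 hx).2
              exact_mod_cast this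
          _ ≤ ((S ^ n).card : ℝ) ^ (k + 1 + 1) * c k := by
              refine mul_le_mul_of_nonneg_right ?_ hc0
              have h9 : (Dk k).card ≤ (S ^ n).card ^ (k + 2) := by
                show (S ^ ((k + 2) * n)).card ≤ _
                rw [mul_comm, pow_mul]
                exact Finset.card_pow_le
              exact_mod_cast h9
          _ ≤ 2 * ((1 : ℝ) / 20) ^ (k + 1) :=
              block ((S ^ n).card : ℝ) n L r hb hL0 hr0 hnr (k + 1) (Nat.le_add_left 1 k)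
    _ ≤ 2 / 19 := geo K

/-- the basic inequality -/
theorem basic (h1 : (1 : G) ∈ S) (hinv : ∀ s ∈ S, s⁻¹ ∈ S)
    (hgen : Subgroup.closure (S : Set G) = ⊤) (hoE : o ∈ E) (ho : (MulAction.orbit G o).Infinite)
    (hg : ∀ f ∈ E, g ∉ KK E g {x | x ≠ f}) (l : ℕ) (hgl : g ∈ S ^ l) (n r D : ℕ)
    (hr : 1 ≤ r) (hD : 34 * ((S.card : ℝ) * E.card) * D ≤ Real.sqrt r)
    (hnr : 2 * ((2 * l + 1 : ℕ) : ℝ) ^ 2 * r * (2 * Real.log ((S ^ n).card : ℝ) + 3) ≤ (n : ℝ) ^ 2) :
    (2 : ℝ) ^ D ≤ 3 * (S ^ n).card := by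
  classical
  have : Nonempty (({s // s ∈ S} × Bool) × Bool) := ⟨((⟨1, h1⟩, true), true)⟩
  have hm := mass_pow (YY S g) r
  rw [mass_eq] at hm
  simp only [PP_pow] at hm
  set W := (((PP (YY S g)) ^ r) (Finsupp.single (1 : G) (1 : ℝ))).support with hW
  have h2 := small_set S E o g h1 hinv hgen hoE ho hg r D hr hD (S ^ n)
  have h3 := tail S g h1 hinv hgen l hgl n r hr hnr (W.filter (fun x => x ∉ S ^ n))
    (fun x hx => (Finset.mem_filter.1 hx).2)
  have h4 : ∑ x ∈ W, pr (YY S g) r x = ∑ x ∈ W.filter (fun x => x ∈ S ^ n), pr (YY S g) r x +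
      ∑ x ∈ W.filter (fun x => x ∉ S ^ n), pr (YY S g) r x :=
    (Finset.sum_filter_add_sum_filter_not W _ _).symm
  have h5 : ∑ x ∈ W.filter (fun x => x ∈ S ^ n), pr (YY S g) r x ≤ ∑ x ∈ S ^ n, pr (YY S g) r x :=
    Finset.sum_le_sum_of_subset_of_nonneg (fun x hx => (Finset.mem_filter.1 hx).2)
      fun x _ _ => pr_nonneg S g r x
  rw [h4] at hm
  have h6 : (3 : ℝ) / 8 ≤ ((S ^ n).card : ℝ) / 2 ^ D := by
    have : (1 : ℝ) ≤ 1 / 2 + ((S ^ n).card : ℝ) / 2 ^ D + 2 / 19 := by linarith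
    linarith
  rw [le_div_iff₀ (by positivity)] at h6
  have : (0 : ℝ) < 2 ^ D := by positivity
  linarith

/-- growth of balls, without fractional powers -/
theorem cube (h1 : (1 : G) ∈ S) (hinv : ∀ s ∈ S, s⁻¹ ∈ S)
    (hgen : Subgroup.closure (S : Set G) = ⊤) (hoE : o ∈ E) (ho : (MulAction.orbit G o).Infinite)
    (hg : ∀ f ∈ E, g ∉ KK E g {x | x ≠ f}) (l : ℕ) (hgl : g ∈ S ^ l) (n : ℕ) :
    (n : ℝ) ^ 2 ≤ (142 * ((2 * l + 1 : ℕ) : ℝ) * ((S.card : ℝ) * E.card)) ^ 2 *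
      (Real.log ((S ^ n).card : ℝ) + 3) ^ 3 := by
  have hm1 : (1 : ℝ) ≤ S.card := by exact_mod_cast Finset.card_pos.2 ⟨1, h1⟩
  have hm2' : (1 : ℝ) ≤ E.card := by exact_mod_cast Finset.card_pos.2 ⟨o, hoE⟩
  set m : ℝ := (S.card : ℝ) * E.card with hmdef
  have hm : 1 ≤ m := by nlinarith
  set L : ℝ := ((2 * l + 1 : ℕ) : ℝ) with hL
  have hL1 : 1 ≤ L := by
    rw [hL]
    exact_mod_cast Nat.le_add_left 1 (2 * l)
  have hcard : 1 ≤ (S ^ n).card := by
    refine Finset.card_pos.2 ⟨1, pow_mono S h1 (Nat.zero_le n) ?_⟩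
    rw [pow_zero]
    exact Finset.mem_one.2 rfl
  have hb : (1 : ℝ) ≤ ((S ^ n).card : ℝ) := by exact_mod_cast hcard
  set B := Real.log ((S ^ n).card : ℝ) with hB
  have hB0 : 0 ≤ B := Real.log_nonneg hb
  set r := ⌊(n : ℝ) ^ 2 / (2 * L ^ 2 * (2 * B + 3))⌋₊ with hrdef
  have hden : 0 < 2 * L ^ 2 * (2 * B + 3) := by positivity
  have hfl : (r : ℝ) ≤ (n : ℝ) ^ 2 / (2 * L ^ 2 * (2 * B + 3)) := Nat.floor_le (by positivity)
  have hfl2 : (n : ℝ) ^ 2 / (2 * L ^ 2 * (2 * B + 3)) < r + 1 := Nat.lt_floor_add_one _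
  rw [le_div_iff₀ hden] at hfl
  rw [div_lt_iff₀ hden] at hfl2
  rcases Nat.eq_zero_or_pos r with hr | hr
  · -- `n` is small
    rw [hr] at hfl2
    have h2 : (n : ℝ) ^ 2 < 2 * L ^ 2 * (2 * B + 3) := by
      have : ((0 : ℕ) : ℝ) + 1 = 1 := by norm_num
      rw [this, one_mul] at hfl2
      exact hfl2
    have h3 : (B + 3) ≤ (B + 3) ^ 3 := by nlinarith [sq_nonneg (B + 3), sq_nonneg (B + 2)]
    have hm2 : 1 ≤ m ^ 2 := by nlinarith
    calc (n : ℝ) ^ 2 ≤ 4 * L ^ 2 * (B + 3) := by nlinarith [sq_nonneg L]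
      _ ≤ 4 * L ^ 2 * (B + 3) ^ 3 := mul_le_mul_of_nonneg_left h3 (by positivity)
      _ ≤ (142 * L * m) ^ 2 * (B + 3) ^ 3 := by
          refine mul_le_mul_of_nonneg_right ?_ (by positivity)
          nlinarith [sq_nonneg L, mul_nonneg (sq_nonneg L) (sub_nonneg.2 hm2)]
  · have hr1 : (1 : ℝ) ≤ r := by exact_mod_cast hr
    set D := ⌊Real.sqrt r / (34 * m)⌋₊ with hD
    have hDl : (D : ℝ) ≤ Real.sqrt r / (34 * m) := Nat.floor_le (by positivity)
    have hDu : Real.sqrt r / (34 * m) < D + 1 := Nat.lt_floor_add_one _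
    rw [le_div_iff₀ (by positivity)] at hDl
    rw [div_lt_iff₀ (by positivity)] at hDu
    have hbas := basic S E o g h1 hinv hgen hoE ho hg l hgl n r D hr (by linarith) (by
      calc 2 * L ^ 2 * r * (2 * B + 3) = r * (2 * L ^ 2 * (2 * B + 3)) := by ring
        _ ≤ (n : ℝ) ^ 2 := hfl)
    -- `D` is at most linear in `B`
    have hlog : (D : ℝ) * Real.log 2 ≤ Real.log 3 + B := by
      have h2 := Real.log_le_log (by positivity) hbas
      rw [Real.log_pow, Real.log_mul (by norm_num) (by linarith)] at h2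
      exact h2
    have hl2 : 0.69 < Real.log 2 := by have := Real.log_two_gt_d9; linarith
    have hl3 : Real.log 3 ≤ 2 := by
      have := Real.log_le_sub_one_of_pos (show (0 : ℝ) < 3 by norm_num)
      linarith
    have hD0 : (0 : ℝ) ≤ D := Nat.cast_nonneg D
    have hDB : (D : ℝ) * 0.69 ≤ B + 2 := by nlinarith
    have hs : Real.sqrt r ≤ 50 * m * (B + 3) := by
      have h3 : (D : ℝ) + 1 ≤ 50 / 34 * (B + 3) := by linarith
      calc Real.sqrt r ≤ (D + 1) * (34 * m) := hDu.le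
        _ ≤ 50 / 34 * (B + 3) * (34 * m) := mul_le_mul_of_nonneg_right h3 (by positivity)
        _ = 50 * m * (B + 3) := by ring
    have hr2 : (r : ℝ) ≤ 2500 * m ^ 2 * (B + 3) ^ 2 := by
      have h4 : Real.sqrt r ^ 2 ≤ (50 * m * (B + 3)) ^ 2 :=
        pow_le_pow_left₀ (Real.sqrt_nonneg _) hs 2
      rw [Real.sq_sqrt (by linarith)] at h4
      calc (r : ℝ) ≤ (50 * m * (B + 3)) ^ 2 := h4
        _ = _ := by ring
    calc (n : ℝ) ^ 2 ≤ (r + 1) * (2 * L ^ 2 * (2 * B + 3)) := hfl2.le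
      _ ≤ (2 * r) * (2 * L ^ 2 * (2 * (B + 3))) := by
          refine mul_le_mul (by linarith) ?_ hden.le (by linarith)
          exact mul_le_mul_of_nonneg_left (by linarith) (by positivity)
      _ = 8 * L ^ 2 * (B + 3) * r := by ring
      _ ≤ 8 * L ^ 2 * (B + 3) * (2500 * m ^ 2 * (B + 3) ^ 2) :=
          mul_le_mul_of_nonneg_left hr2 (by positivity)
      _ = 20000 * (L ^ 2 * m ^ 2 * (B + 3) ^ 3) := by ring
      _ ≤ 20164 * (L ^ 2 * m ^ 2 * (B + 3) ^ 3) :=
          mul_le_mul_of_nonneg_right (by norm_num) (by positivity)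
      _ = _ := by ring

end

end Pool.Agent.Lib.MP_1da1b4_al
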